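import Pool.Agent.Q55.Nr.Lam
import Pool.Agent.Q55.Ke.Pos

/-!
# Positivity modulo numerical equivalence: the abstract theorem
-/

set_option linter.unusedSectionVars false

open scoped ComplexOrder

namespace Pool.Agent.Q55.Nr

open Module Matrix Pool.Agent.Q60.ED Pool.Agent.Q60.NP Pool.Agent.Q55.Ke
open Pool.Agent.W552 (RatSub)

variable {ι : Type} [Fintype ι] [DecidableEq ι] {B : Matrix ι ι ℂ}

/-- **Numerical characters exist.** -/
theorem exists_nc (hB : Bᴴ * B = 1) (C : CSys B) : Nonempty (NC C) := by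
  obtain ⟨T, hT, hp⟩ := exists_orthsys (br B) (br_nd hB)
  have hom : om B ∈ T.S 2 := by
    rw [hT]
    exact (br B).om
  obtain ⟨φ, hφ⟩ := exists_phi (C := C) aleph0_lt_complex T hom (det_of_unitary hB) (by
    intro n t ht
    apply br_nd hB n
    · rw [← hT]
      exact T.p_mem n t
    · intro w hw
      rw [hp n t w hw]
      exact ht.2 w (br_le C n hw))
  exact ⟨⟨φ, hφ⟩⟩

/-- **The abstract theorem on positivity modulo numerical equivalence.** -/
theorem num_pos (hB : Bᴴ * B = 1) (R : RS B) (Φ : NC R.span) {L : ℕ}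
    (hpos : ∀ n ≤ L, ∀ r, R.R n r → r ∉ R.span.rad n → ∃ q : ℚ, 0 < q ∧ bf (TP B n) r r = q)
    {n : ℕ} {r : (Fin n → ι) → ℂ} (hr : R.R n r)
    (hfix : ∀ κ ∈ Φ.stab L, tpow (κ : Matrix ι ι ℂ) n (Φ.lam r) = Φ.lam r)
    (hr0 : r ∉ R.span.rad n) : 0 < (bf (TP B n) r r).re := by
  have hBd := det_of_unitary hB
  obtain ⟨M', hM1, -, hstab⟩ := (lamR hBd R Φ).span.exists_stable (max L 2)
  have hL : L ≤ M' := (le_max_left _ _).trans hM1
  have h2 : 2 ≤ M' := (le_max_right _ _).trans hM1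
  have hnd := fun n => lamR_nd (hB := hBd) (R := R) (Φ := Φ) n
  obtain ⟨T, hT⟩ := (lamR hBd R Φ).span.exists_tsys hBd h2 (fun n _ => hnd n) hstab
  have hndT : ∀ n, ∀ v ∈ T.S n, (∀ w ∈ T.S n, bf (TP B n) v w = 0) → v = 0 := by
    intro n
    rw [hT]
    exact CSys.genS_nd hBd h2 (fun n _ => hnd n) hstab n
  obtain ⟨κ, hκ, hκ1, hκ2⟩ := exists_k hB (lamR hBd R Φ) (L := L) (M := M' + 2) (by omega) hT
    hndT (by
      rintro n hn _ ⟨s, hs, rfl⟩ h0
      obtain ⟨q, hq, hq'⟩ := hpos n hn s hs fun h1 => h0 (NC.lam_rad h1)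
      exact ⟨q, hq, by rw [NC.bf_lam hBd (Submodule.subset_span hs) (Submodule.subset_span hs),
        hq']⟩)
  have hrS : r ∈ R.span.S n := Submodule.subset_span hr
  -- the elements of the stabiliser
  have hκs : (⟨κ, hκ⟩ : Aut B) ∈ Φ.stab L := by
    intro m hm t ht
    have h3 : Φ.lam t ∈ (lamR hBd R Φ).span.S m := mem_span_lamR.2 ⟨t, ht, rfl⟩
    rw [RS.span_S] at h3
    change tpow κ m (Φ.lam t) = Φ.lam t
    generalize Φ.lam t = y at h3 ⊢
    induction h3 using Submodule.span_induction with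
    | mem x hx => exact hκ1 m hm x hx
    | zero => exact map_zero _
    | add x y _ _ hx hy => rw [map_add, hx, hy]
    | smul c x _ hx => rw [map_smul, hx]
  have hmem : Φ.lam r ∈ T.S n := by
    have hΩ : om B ∈ T.S 2 := by
      rw [hT]
      exact ((lamR hBd R Φ).span.genS (M' + 2)).om
    have hΩd : (mat2 (om B)).det ≠ 0 := by
      rw [mat2_om]
      exact (Matrix.isUnit_nonsing_inv_det _ (isUnit_iff_ne_zero.2 hBd)).ne_zero
    refine T.mem_of_fixed hΩ hΩd fun h hh => ?_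
    have hA : h ∈ Aut B := (Aut_om hBd).2 (hh 2 _ hΩ)
    refine hfix ⟨h, hA⟩ fun m hm t ht => ?_
    refine hh m _ ?_
    rw [hT, CSys.genS_eq (by omega)]
    exact mem_span_lamR.2 ⟨t, ht, rfl⟩
  have h4 := hκ2 n (Φ.lam r) ⟨r, hr, rfl⟩ hmem (hfix ⟨κ, hκ⟩ hκs) fun h0 =>
    hr0 ((NC.lam_eq_zero hBd hrS).1 h0)
  rwa [NC.bf_lam hBd hrS hrS] at h4

end Pool.Agent.Q55.Nr
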