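import Pool.Agent.H914R2.PDesc
import Pool.Agent.H914R2.KDefs
import Pool.Agent.Y121.AH.Abs

/-!
# Extension of the coefficients and the Lefschetz standard conjecture
-/

open CategoryTheory AlgebraicGeometry Finset TensorProduct

universe u v

namespace Pool.Agent.Q55.Nr

open Pool.Agent.H914 Pool.Agent.H914.VarClass Pool.Agent.H914.VarClass.Obj
  Pool.Agent.H914.WeilCohomology

section Alg

variable {K : Type*} [Field K] {V V' : Type*} [AddCommGroup V] [Module K V] [AddCommGroup V']
  [Module K V'] {L : Type*} [Field L] [Algebra K L]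

/-- Generalised inverses. -/
lemma exists_ginv (φ : V →ₗ[K] V') : ∃ ψ : V' →ₗ[K] V, ∀ v, φ (ψ (φ v)) = φ v := by
  obtain ⟨σ, hσ⟩ := LinearMap.exists_rightInverse_of_surjective φ.rangeRestrict
    (LinearMap.range_eq_top.2 φ.surjective_rangeRestrict)
  obtain ⟨ψ, hψ⟩ := LinearMap.exists_extend σ
  refine ⟨ψ, fun v => ?_⟩
  have h1 : ψ (φ v) = σ (φ.rangeRestrict v) := by
    rw [← hψ]
    rfl
  rw [h1]
  exact congrArg Subtype.val (LinearMap.congr_fun hσ (φ.rangeRestrict v))

lemma bc_vanish {G : Submodule K V} {M : V →ₗ[K] V'} (hM : ∀ x ∈ G, M x = 0)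
    {x : L ⊗[K] V} (hx : x ∈ G.baseChange L) : M.baseChange L x = 0 := by
  have h1 : G.baseChange L ≤ LinearMap.ker (M.baseChange L) := by
    rw [Submodule.baseChange_eq_span, Submodule.span_le]
    rintro _ ⟨v, hv, rfl⟩
    rw [SetLike.mem_coe, LinearMap.mem_ker, TensorProduct.mk_apply, LinearMap.baseChange_tmul,
      hM v hv, tmul_zero]
  exact h1 hx

/-- Extension of the coefficients of the lowering operator. -/
lemma isLam_base {gr : ℕ → Submodule K V} {n : ℕ} {T Lam : Module.End K V}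
    (h : IsLam gr n T Lam) :
    IsLam (fun i => (gr i).baseChange L) n (T.baseChange L) (Lam.baseChange L) := by
  intro i hi a ha h0
  obtain ⟨ψ, hψ⟩ := exists_ginv ((T ^ (n - i + 1)).comp (gr i).subtype)
  set s : Module.End K V := (gr i).subtype.comp ψ with hs
  have hs1 : ∀ v ∈ gr i, v - s ((T ^ (n - i + 1)) v) ∈ gr i ∧
      (T ^ (n - i + 1)) (v - s ((T ^ (n - i + 1)) v)) = 0 := by
    intro v hv
    refine ⟨Submodule.sub_mem _ hv (ψ _).2, ?_⟩
    have h1 := hψ ⟨v, hv⟩
    rw [map_sub, sub_eq_zero]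
    exact h1.symm
  have hpow : ∀ m, (T.baseChange L) ^ m = (T ^ m).baseChange L := fun m => (bc_pow L T m).symm
  rw [hpow] at h0
  -- the combined operators
  have e1 : ∀ x ∈ gr i, (Lam.comp (LinearMap.id - s.comp (T ^ (n - i + 1)))) x = 0 := fun x hx =>
    (h i hi _ (hs1 x hx).1 (hs1 x hx).2).1
  have e2 : ∀ j < n - i, ∀ x ∈ gr i, ((Lam.comp ((T ^ (j + 1)).comp
      (LinearMap.id - s.comp (T ^ (n - i + 1)))) : V →ₗ[K] V) -
      ((T ^ j).comp (LinearMap.id - s.comp (T ^ (n - i + 1))) : V →ₗ[K] V)) x = 0 :=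
    fun j hj x hx => sub_eq_zero.2 ((h i hi _ (hs1 x hx).1 (hs1 x hx).2).2 j hj)
  have hcomb : (LinearMap.id - s.comp (T ^ (n - i + 1)) : Module.End K V).baseChange L a = a := by
    rw [LinearMap.baseChange_sub, LinearMap.sub_apply, LinearMap.baseChange_id,
      LinearMap.id_apply, LinearMap.baseChange_comp, LinearMap.comp_apply, h0, map_zero, sub_zero]
  constructor
  · have h1 := bc_vanish (L := L) e1 ha
    rwa [LinearMap.baseChange_comp, LinearMap.comp_apply, hcomb] at h1
  · intro j hj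
    have h1 := bc_vanish (L := L) (e2 j hj) ha
    rw [LinearMap.baseChange_sub, LinearMap.sub_apply, LinearMap.baseChange_comp,
      LinearMap.comp_apply, LinearMap.baseChange_comp, LinearMap.comp_apply,
      LinearMap.baseChange_comp, LinearMap.comp_apply, hcomb, sub_eq_zero] at h1
    rw [hpow, hpow]
    exact h1

end Alg

variable {k : Type u} [Field k] {𝒱 : VarClass k} {ops : CycleOps 𝒱}
  {W : WeilCohomology.{u, 0} ops} {X Y : 𝒱.Obj} {L : Type} [Field L] [Algebra W.K L]

lemma base_corr (c : W.H (X.prod Y)) (x : (baseW W L).H X) :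
    (baseW W L).corr (Pool.Agent.Y121.AH.em W L c) x = (W.corr c).baseChange L x := by
  refine tmul_induction (P := fun x => (baseW W L).corr (Pool.Agent.Y121.AH.em W L c) x =
    (W.corr c).baseChange L x) ?_ ?_ ?_ x
  · exact (map_zero ((baseW W L).corr (Pool.Agent.Y121.AH.em W L c))).trans
      (map_zero ((W.corr c).baseChange L)).symm
  · intro x y hx hy
    exact (map_add ((baseW W L).corr (Pool.Agent.Y121.AH.em W L c)) x y).trans
      ((congrArg₂ (· + ·) hx hy).trans (map_add ((W.corr c).baseChange L) x y).symm)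
  · intro l v
    have h1 : (l ⊗ₜ[W.K] v : L ⊗[W.K] W.H X) = l • ((1 : L) ⊗ₜ[W.K] v) := by
      rw [smul_tmul', smul_eq_mul, mul_one]
    have h2 : (baseW W L).corr (Pool.Agent.Y121.AH.em W L c)
        (Pool.Agent.Y121.AH.em W L v) = Pool.Agent.Y121.AH.em W L (W.corr c v) := by
      rw [corr_apply, corr_apply, Pool.Agent.Y121.AH.em_map, ← Pool.Agent.Y121.AH.em_mul,
        Pool.Agent.Y121.AH.em_push]
    rw [h1]
    have h3 := LinearMap.map_smul ((baseW W L).corr (Pool.Agent.Y121.AH.em W L c)) l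
      (Pool.Agent.Y121.AH.em W L v)
    have h4 := LinearMap.map_smul ((W.corr c).baseChange L) l ((1 : L) ⊗ₜ[W.K] v)
    have h5 : (W.corr c).baseChange L ((1 : L) ⊗ₜ[W.K] v) = (1 : L) ⊗ₜ[W.K] (W.corr c v) :=
      LinearMap.baseChange_tmul _ _ _
    rw [h5] at h4
    rw [h2] at h3
    exact h3.trans h4.symm

/-- **Extension of the coefficients and the Lefschetz standard conjecture.** -/
theorem base_lefschetzB {D : X.Cycles} (h : LefschetzB W X D) :
    LefschetzB (baseW W L) X D := by
  obtain ⟨z, hz, hLam⟩ := h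
  refine ⟨z, hz, ?_⟩
  have h1 := isLam_base (L := L) hLam
  rw [← mulLeft_base] at h1
  have h2 : (baseW W L).corr ((baseW W L).cl (X.prod X) z) =
      (W.corr (W.cl (X.prod X) z)).baseChange L := LinearMap.ext fun x => base_corr _ x
  rw [InducesLambda, h2]
  exact h1

end Pool.Agent.Q55.Nr
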