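import Pool.Agent.Q55.Ke.RS

/-!
# The smallest closed system of tensors
-/

set_option linter.unusedSectionVars false

open scoped ComplexOrder

namespace Pool.Agent.Q55.Nr

open Module Matrix Pool.Agent.Q60.ED Pool.Agent.Q60.NP Pool.Agent.Q55.Ke

section Field

variable {K : Type} [Field K] {ι : Type} [Fintype ι] [DecidableEq ι]

/-- The smallest closed system. -/
def br (B : Matrix ι ι K) : CSys B where
  S n := ⨅ D : CSys B, D.S n
  one := (Submodule.mem_iInf _).2 fun D => D.one
  mul hs ht := (Submodule.mem_iInf _).2 fun D =>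
    D.mul ((Submodule.mem_iInf _).1 hs D) ((Submodule.mem_iInf _).1 ht D)
  perm σ _ ht := (Submodule.mem_iInf _).2 fun D => D.perm σ ((Submodule.mem_iInf _).1 ht D)
  contr hs ht := (Submodule.mem_iInf _).2 fun D =>
    D.contr ((Submodule.mem_iInf _).1 hs D) ((Submodule.mem_iInf _).1 ht D)
  om := (Submodule.mem_iInf _).2 fun D => D.om

variable {B : Matrix ι ι K}

lemma br_le (C : CSys B) (n : ℕ) : (br B).S n ≤ C.S n := iInf_le _ C

/-- A closed system of tensors on which the form is nondegenerate has orthogonal projections. -/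
theorem exists_orthsys (C : CSys B)
    (hnd : ∀ n, ∀ v ∈ C.S n, (∀ w ∈ C.S n, bf (TP B n) v w = 0) → v = 0) :
    ∃ T : TSys K ι, T.S = C.S ∧
      ∀ n v, ∀ w ∈ C.S n, bf (TP B n) (T.p n v) w = bf (TP B n) v w := by
  choose p h1 h2 h3 using fun n => exists_orth (TP B n) (C.S n) (hnd n)
  have huniq : ∀ n v x, x ∈ C.S n → (∀ w ∈ C.S n, bf (TP B n) x w = bf (TP B n) v w) →
      p n v = x := by
    intro n v x hx h
    rw [← sub_eq_zero]
    apply hnd n _ (Submodule.sub_mem _ (h1 n v) hx)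
    intro w hw
    rw [bf_sub_left, h3 n v w hw, h w hw, sub_self]
  refine ⟨⟨C.S, p, h1, h2, ?_, ?_, C.one⟩, rfl, h3⟩
  · intro n σ t I
    refine congrFun (huniq n _ (fun I => p n t (I ∘ σ)) (C.perm σ (h1 n t)) fun w hw => ?_) I
    rw [Pool.Agent.Q60.TD.bf_permK, Pool.Agent.Q60.TD.bf_permK, h3 n t _ (C.perm σ.symm hw)]
  · intro m n s t hs
    refine huniq _ _ _ (C.mul hs (h1 n t)) fun w hw => ?_
    rw [Pool.Agent.Q60.TD.bf_tmulK, Pool.Agent.Q60.TD.bf_tmulK, h3 n t _ (C.contr hs hw)]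

end Field

variable {ι : Type} [Fintype ι] [DecidableEq ι] {B : Matrix ι ι ℂ}

/-- The antilinear map and contractions. -/
lemma J0_ctr (hB : Bᴴ * B = 1) {m n : ℕ} (s : (Fin m → ι) → ℂ) (t : (Fin (m + n) → ι) → ℂ) :
    J0 B n (ctr B s t) = ctr B (J0 B m s) (J0 B (m + n) t) := by
  have hBB : B * Bᴴ = 1 := mul_eq_one_comm.1 hB
  have hBd : (Bᴴ).det ≠ 0 := by
    intro h0
    have h1 := congrArg Matrix.det hBB
    rw [det_mul, h0, mul_zero, det_one] at h1
    exact zero_ne_one h1
  have hinv : (Bᴴ)⁻¹ = B := inv_eq_right_inv hB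
  set B' : Matrix ι ι ℂ := B.map (starRingEnd ℂ) with hB'
  have hq : ((Bᴴ)⁻¹)ᵀ * B' * (Bᴴ)⁻¹ = B := by
    rw [hinv]
    have h1 : Bᵀ * B' = 1 := by
      have h2 : B' = (Bᴴ)ᵀ := by
        ext i j
        rw [transpose_apply, conjTranspose_apply, hB', Matrix.map_apply]
        rfl
      rw [h2, ← transpose_mul, hB, transpose_one]
    rw [h1, Matrix.one_mul]
  funext L
  have h1 := tpow_contr hBd B' (fun I => starRingEnd ℂ (s I)) (fun I => starRingEnd ℂ (t I)) L
  rw [hq] at h1
  have h2 : (fun I => starRingEnd ℂ (ctr B s t I)) = fun J => ∑ I, ∑ I',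
      starRingEnd ℂ (s I) * TP B' m I I' * starRingEnd ℂ (t (Fin.append I' J)) := by
    funext J
    simp only [ctr, map_sum, map_mul]
    refine Finset.sum_congr rfl fun I _ => Finset.sum_congr rfl fun I' _ => ?_
    congr 2
    rw [TP_apply, TP_apply, map_prod]
    rfl
  rw [J0, h2]
  exact h1

/-- The preimage of a closed system under the antilinear map. -/
noncomputable def conjSys (hB : Bᴴ * B = 1) (C : CSys B) : CSys B where
  S n :=
    { carrier := {t | J0 B n t ∈ C.S n}
      add_mem' := fun {a b} ha hb => by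
        change J0 B n (a + b) ∈ C.S n
        rw [J0_add]
        exact Submodule.add_mem _ ha hb
      zero_mem' := by
        change J0 B n 0 ∈ C.S n
        have h1 := J0_smul (n := n) B 0 0
        rw [zero_smul, map_zero, zero_smul] at h1
        rw [h1]
        exact Submodule.zero_mem _
      smul_mem' := fun c a ha => by
        change J0 B n (c • a) ∈ C.S n
        rw [J0_smul]
        exact Submodule.smul_mem _ _ ha }
  one := by
    change J0 B 0 (fun _ => 1) ∈ C.S 0
    rw [J0_one]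
    exact C.one
  mul {m n s t} hs ht := by
    change J0 B (m + n) (tmul s t) ∈ C.S (m + n)
    rw [J0_tmul]
    exact C.mul hs ht
  perm {n} σ t ht := by
    change J0 B n (fun J => t (J ∘ σ)) ∈ C.S n
    rw [J0_perm]
    exact C.perm σ ht
  contr {m n s t} hs ht := by
    change J0 B n (ctr B s t) ∈ C.S n
    rw [J0_ctr hB]
    exact C.contr hs ht
  om := by
    change J0 B 2 (om B) ∈ C.S 2
    rw [J0_om hB]
    exact C.om

lemma mem_conjSys (hB : Bᴴ * B = 1) {C : CSys B} {n : ℕ} {t : (Fin n → ι) → ℂ} :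
    t ∈ (conjSys hB C).S n ↔ J0 B n t ∈ C.S n := Iff.rfl

/-- The smallest closed system is nondegenerate. -/
theorem br_nd (hB : Bᴴ * B = 1) (n : ℕ) : ∀ v ∈ (br B).S n,
    (∀ w ∈ (br B).S n, bf (TP B n) v w = 0) → v = 0 := by
  intro v hv h
  have h1 : J0 B n v ∈ (br B).S n := (mem_conjSys hB).1 (br_le (conjSys hB (br B)) n hv)
  have h2 := h _ h1
  rw [← ip_J0, ip_self] at h2
  have h3 : nsq (J0 B n v) = 0 := by exact_mod_cast h2
  rw [nsq_J0 hB] at h3
  exact eq_zero_of_nsq h3.le

end Pool.Agent.Q55.Nr
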