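import Mathlib

/-!
# Characters of algebras of countable dimension
-/

open Cardinal Module

namespace Pool.Agent.Q55.Nr

/-- A commutative algebra of countable dimension over an uncountable algebraically closed field has
characters which vanish on a given proper ideal. -/
theorem exists_character {K : Type} [Field K] [IsAlgClosed K] (hK : ℵ₀ < #K) {A : Type}
    [CommRing A] [Algebra K A] (hA : Module.rank K A ≤ ℵ₀) {I : Ideal A} (hI : I ≠ ⊤) :
    ∃ φ : A →ₐ[K] K, ∀ x ∈ I, φ x = 0 := by
  obtain ⟨m, hm, hle⟩ := Ideal.exists_le_maximal I hI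
  let _ : Field (A ⧸ m) := Ideal.Quotient.field m
  have hF : Module.rank K (A ⧸ m) ≤ ℵ₀ :=
    (LinearMap.rank_le_of_surjective (Ideal.Quotient.mkₐ K m).toLinearMap
      (Ideal.Quotient.mkₐ_surjective K m)).trans hA
  have halg : Algebra.IsAlgebraic K (A ⧸ m) := by
    refine ⟨fun x => ?_⟩
    by_contra hx
    have h1 := (show Transcendental K x from hx).linearIndependent_sub_inv
    have h2 := h1.cardinal_le_rank
    exact absurd (hK.trans_le (h2.trans hF)) (lt_irrefl _)
  have hbij : Function.Bijective (Algebra.ofId K (A ⧸ m)) :=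
    IsAlgClosed.algebraMap_bijective_of_isIntegral
  refine ⟨((AlgEquiv.ofBijective (Algebra.ofId K (A ⧸ m)) hbij).symm : (A ⧸ m) →ₐ[K] K).comp
    (Ideal.Quotient.mkₐ K m), fun x hx => ?_⟩
  rw [AlgHom.comp_apply, Ideal.Quotient.mkₐ_eq_mk, Ideal.Quotient.eq_zero_iff_mem.2 (hle hx),
    map_zero]

lemma aleph0_lt_complex : ℵ₀ < #ℂ := by
  rw [mk_complex]
  exact aleph0_lt_continuum

end Pool.Agent.Q55.Nr
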