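import Pool.Agent.Q55.Nr.Lam
import Pool.Agent.Q55.Ke.Geo
import Pool.Agent.Q60.NP.PGen

/-!
# Classes whose coordinates in a family of bases belong to an algebra of functions
-/

open CategoryTheory AlgebraicGeometry TensorProduct

set_option linter.unusedSectionVars false

universe u v

namespace Pool.Agent.Q55.Nr

open Module Matrix
open Pool.Agent.H914 Pool.Agent.H914.VarClass Pool.Agent.H914.VarClass.Obj
  Pool.Agent.H914.WeilCohomology
open Pool.Agent.Y133.Half Pool.Agent.Q60.ED Pool.Agent.Q60.TD Pool.Agent.H281R3.HT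
  Pool.Agent.H447 Pool.Agent.Q55 Pool.Agent.Q55.Hs Pool.Agent.Q60.NP Pool.Agent.Q55.Ke
open Pool.Agent.Q60.HD (wd wd_zero wd_succ wd_map wd_prj wd_append wd_PH wb_PH sum_append' wb_xp)

section Lin

/-- Inverses of matrices of functions. -/
lemma inv_mem {K : Type} [Field K] {H : Type*} {κ : Type*} [Fintype κ] [DecidableEq κ]
    (E : Subalgebra K (H → K)) (M : H → Matrix κ κ K) (hM : ∀ i j, (fun h => M h i j) ∈ E)
    {d : K} (hdet : ∀ h, (M h).det = d) (i j : κ) : (fun h => (M h)⁻¹ i j) ∈ E := by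
  let ME : Matrix κ κ E := Matrix.of fun i j => ⟨fun h => M h i j, hM i j⟩
  have h1 : ∀ h : H, M h = ((Pi.evalRingHom (fun _ : H => K) h).comp E.val.toRingHom).mapMatrix
      ME := fun h => rfl
  have h2 : (fun h => (M h)⁻¹ i j) = d⁻¹ • ((ME.adjugate i j : E) : H → K) := by
    funext h
    rw [Matrix.inv_def, hdet, Matrix.smul_apply, Ring.inverse_eq_inv', Pi.smul_apply]
    congr 1
    rw [h1 h, ← RingHom.map_adjugate]
    rfl
  rw [h2]
  exact Subalgebra.smul_mem _ (ME.adjugate i j).2 _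

variable {K : Type} [Field K] {ι : Type} [Fintype ι] [DecidableEq ι] {B : Matrix ι ι K}

lemma Aut_sgm {a : ι → ℕ} (hB : B.det ≠ 0) (hBT : Bᵀ = B * sgm K a) {h : Matrix ι ι K}
    (hh : h ∈ Aut B) : sgm K a * h = h * sgm K a := by
  have hBu := isUnit_iff_ne_zero.2 hB
  have hu := isUnit_iff_ne_zero.2 (det_Aut hB hh)
  have h1 := congrArg transpose (mem_Aut.1 hh)
  rw [transpose_mul, transpose_mul, transpose_transpose, hBT] at h1
  have h2 : hᵀ * B = B * h⁻¹ := by
    calc hᵀ * B = hᵀ * B * h * h⁻¹ := by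
          rw [Matrix.mul_assoc _ h, mul_nonsing_inv _ hu, Matrix.mul_one]
      _ = B * h⁻¹ := by rw [mem_Aut.1 hh]
  have h3 : B * (h⁻¹ * sgm K a * h) = B * sgm K a := by
    calc B * (h⁻¹ * sgm K a * h) = (B * h⁻¹) * sgm K a * h := by simp only [Matrix.mul_assoc]
      _ = hᵀ * (B * sgm K a * h) := by rw [← h2]; simp only [Matrix.mul_assoc]
      _ = _ := h1
  have h4 : h⁻¹ * sgm K a * h = sgm K a := by
    have h5 := congrArg (fun M => B⁻¹ * M) h3
    simpa only [← Matrix.mul_assoc, nonsing_inv_mul _ hBu, Matrix.one_mul] using h5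
  calc sgm K a * h = (h * h⁻¹) * (sgm K a * h) := by rw [mul_nonsing_inv _ hu, Matrix.one_mul]
    _ = h * (h⁻¹ * sgm K a * h) := by simp only [Matrix.mul_assoc]
    _ = _ := by rw [h4]

lemma Aut_det_sq (hB : B.det ≠ 0) {h : Matrix ι ι K} (hh : h ∈ Aut B) : h.det ^ 2 = 1 := by
  have h1 := congrArg Matrix.det (mem_Aut.1 hh)
  rw [det_mul, det_mul, det_transpose] at h1
  have h2 : B.det * (h.det ^ 2 - 1) = 0 := by linear_combination h1
  have h3 := (mul_eq_zero.1 h2).resolve_left hB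
  linear_combination h3

lemma TP_det_sq (hB : B.det ≠ 0) {h : Matrix ι ι K} (hh : h ∈ Aut B) (n : ℕ) :
    (TP h n).det ^ 2 = 1 := by
  have h1 : (TP h n)ᵀ * TP B n * TP h n = TP B n := by
    rw [← TP_transpose, ← TP_mul, ← TP_mul, mem_Aut.1 hh]
  have hd : (TP B n).det ≠ 0 := by
    intro h0
    have h2 := congrArg Matrix.det (TP_det hB n).1
    rw [det_mul, h0, zero_mul, det_one] at h2
    exact zero_ne_one h2
  have h2 := congrArg Matrix.det h1
  rw [det_mul, det_mul, det_transpose] at h2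
  have h3 : (TP B n).det * ((TP h n).det ^ 2 - 1) = 0 := by linear_combination h2
  have h4 := (mul_eq_zero.1 h3).resolve_left hd
  linear_combination h4

end Lin

variable {k : Type u} [Field k] {𝒱 : VarClass k} {ops : CycleOps 𝒱}

variable {W : WeilCohomology.{u, 0} ops} {X Y Z : 𝒱.Obj} {ι : Type} [Fintype ι] [DecidableEq ι]
  (e : Basis ι W.K (W.H X)) {a : ι → ℕ} {B : Matrix ι ι W.K}

/-- The translates of the basis. -/
noncomputable def eh (hB : B.det ≠ 0) (h : Aut B) : Basis ι W.K (W.H X) :=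
  e.map (Matrix.toLinearEquiv e ((h : Matrix ι ι W.K)⁻¹)
    (Matrix.isUnit_nonsing_inv_det _ (isUnit_iff_ne_zero.2 (det_Aut hB h.2))))

lemma eh_apply (hB : B.det ≠ 0) (h : Aut B) (j : ι) :
    eh e hB h j = ∑ i, ((h : Matrix ι ι W.K)⁻¹) i j • e i := by
  rw [eh, Basis.map_apply]
  exact Matrix.toLin_self e e _ j

lemma eh_PH (hB : B.det ≠ 0) (hBT : Bᵀ = B * sgm W.K a) (he : ∀ j, e j ∈ PH W X (a j))
    (h : Aut B) (j : ι) : eh e hB h j ∈ PH W X (a j) := by
  rw [eh_apply]
  have hs := Aut_sgm hB hBT (inv_mem_Aut hB h.2)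
  refine Submodule.sum_mem _ fun i _ => ?_
  by_cases hij : a i % 2 = a j % 2
  · exact Submodule.smul_mem _ _ (PH.congr hij (he i))
  · have h1 : ((h : Matrix ι ι W.K)⁻¹) i j = 0 := by
      have h2 := congrFun (congrFun hs i) j
      rw [sgm, diagonal_mul, mul_diagonal] at h2
      have h3 : (-1 : W.K) ^ a i = -(-1 : W.K) ^ a j := by
        rcases Nat.even_or_odd (a i) with h4 | h4 <;> rcases Nat.even_or_odd (a j) with h5 | h5
        · exact absurd ((Nat.even_iff.1 h4).trans (Nat.even_iff.1 h5).symm) hij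
        · rw [h4.neg_one_pow, h5.neg_one_pow, neg_neg]
        · rw [h4.neg_one_pow, h5.neg_one_pow]
        · exact absurd ((Nat.odd_iff.1 h4).trans (Nat.odd_iff.1 h5).symm) hij
      have h6 : (-1 : W.K) ^ a j ≠ 0 := pow_ne_zero _ (neg_ne_zero.2 one_ne_zero)
      have h7 : (2 * (-1 : W.K) ^ a j) * ((h : Matrix ι ι W.K)⁻¹) i j = 0 := by
        rw [h3] at h2
        linear_combination -h2
      exact (mul_eq_zero.1 h7).resolve_left (mul_ne_zero two_ne_zero h6)
    rw [h1, zero_smul]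
    exact Submodule.zero_mem _

lemma wd_eh (hB : B.det ≠ 0) (h : Aut B) {n : ℕ} (f : Fin n → (Z ⟶ X)) (w : Fin n → ι) :
    wd (eh e hB h) f w = ∑ J : Fin n → ι, (∏ i, ((h : Matrix ι ι W.K)⁻¹) (J i) (w i)) •
      wd e f J := by
  induction n with
  | zero =>
    rw [wd_zero, Fintype.sum_unique, wd_zero, Finset.univ_eq_empty, Finset.prod_empty, one_smul]
  | succ n ih =>
    rw [wd_succ, ih, sum_wd_succ e f w, eh_apply, map_sum]
    simp only [map_smul]

lemma clsK_eh (hB : B.det ≠ 0) (h : Aut B) {n : ℕ} (f : Fin n → (Z ⟶ X))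
    (t : (Fin n → ι) → W.K) :
    clsK (eh e hB h) f t = clsK e f (tpow ((h : Matrix ι ι W.K)⁻¹) n t) := by
  rw [clsK, clsK]
  simp only [wd_eh, Finset.smul_sum, smul_smul]
  rw [Finset.sum_comm]
  refine Finset.sum_congr rfl fun J _ => ?_
  rw [tpow_apply, Finset.sum_smul]
  exact Finset.sum_congr rfl fun w _ => by rw [mul_comm]

lemma tn_eh (hB : B.det ≠ 0) (h : Aut B) (n : ℕ) (c : W.H (pw X n)) :
    tn (eh e hB h) n c = tpow (h : Matrix ι ι W.K) (n + 1) (tn e n c) := by
  apply clsK_inj (eh e hB h) n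
  rw [clsK_tn, clsK_eh, ← tpow_mul,
    nonsing_inv_mul _ (isUnit_iff_ne_zero.2 (det_Aut hB h.2)), tpow_one, clsK_tn]

lemma wb_eh (hB : B.det ≠ 0) (h : Aut B) (n : ℕ) (J : Fin (n + 1) → ι) :
    wb (eh e hB h) n J = ∑ I, TP ((h : Matrix ι ι W.K)⁻¹) (n + 1) I J • wb e n I := by
  rw [← wd_prj, wd_eh]
  refine Finset.sum_congr rfl fun I _ => ?_
  rw [wd_prj]
  rfl

/-- The families of classes whose coordinates belong to the algebra. -/
def Nv (hB : B.det ≠ 0) (E : Subalgebra W.K (Aut B → W.K)) (n : ℕ)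
    (x : Aut B → W.H (pw X n)) : Prop := ∀ I, (fun h => tn (eh e hB h) n (x h) I) ∈ E

lemma tn_sum (n : ℕ) (c : W.H (pw X n)) : c = ∑ I, tn e n c I • wb e n I := by
  conv_lhs => rw [← clsK_tn e n c, clsK]
  exact Finset.sum_congr rfl fun I _ => by rw [wd_prj]

lemma tn_add (n : ℕ) (c d : W.H (pw X n)) : tn e n (c + d) = tn e n c + tn e n d := map_add _ _ _

lemma tn_smul (n : ℕ) (r : W.K) (c : W.H (pw X n)) : tn e n (r • c) = r • tn e n c :=
  map_smul _ _ _

lemma tn_zero (n : ℕ) : tn e n (0 : W.H (pw X n)) = 0 := map_zero _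

lemma tn_wb (n : ℕ) (J : Fin (n + 1) → ι) : tn e n (wb e n J) = Pi.single J 1 := by
  funext I
  change (wb e n).equivFun (wb e n J) I = _
  rw [Basis.equivFun_self, Pi.single_apply]
  exact if_congr eq_comm rfl rfl

variable {e} {hB : B.det ≠ 0} {E : Subalgebra W.K (Aut B → W.K)} {n : ℕ}

lemma Nv.const_iff {c : W.H (pw X n)} :
    Nv e hB E n (fun _ => c) ↔ ∀ I, cf B (tn e n c) I ∈ E := by
  refine forall_congr' fun I => ?_
  have h1 : (fun h => tn (eh e hB h) n c I) = cf B (tn e n c) I := by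
    funext h
    rw [tn_eh, cf_apply]
  rw [h1]

lemma Nv.add {x y : Aut B → W.H (pw X n)} (hx : Nv e hB E n x) (hy : Nv e hB E n y) :
    Nv e hB E n fun h => x h + y h := by
  intro I
  have h1 : (fun h => tn (eh e hB h) n (x h + y h) I) =
      (fun h => tn (eh e hB h) n (x h) I) + fun h => tn (eh e hB h) n (y h) I := by
    funext h
    rw [tn_add, Pi.add_apply, Pi.add_apply]
  rw [h1]
  exact Subalgebra.add_mem _ (hx I) (hy I)

lemma Nv.zero : Nv e hB E n fun _ => 0 := by
  intro I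
  have h1 : (fun h => tn (eh e hB h) n (0 : W.H (pw X n)) I) = 0 := by
    funext h
    rw [tn_zero, Pi.zero_apply, Pi.zero_apply]
  rw [h1]
  exact Subalgebra.zero_mem _

lemma Nv.smul {r : Aut B → W.K} (hr : r ∈ E) {x : Aut B → W.H (pw X n)}
    (hx : Nv e hB E n x) : Nv e hB E n fun h => r h • x h := by
  intro I
  have h1 : (fun h => tn (eh e hB h) n (r h • x h) I) =
      r * fun h => tn (eh e hB h) n (x h) I := by
    funext h
    rw [tn_smul, Pi.smul_apply, smul_eq_mul, Pi.mul_apply]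
  rw [h1]
  exact Subalgebra.mul_mem _ hr (hx I)

lemma const_mem (c : W.K) : (fun _ => c) ∈ E := Subalgebra.algebraMap_mem E c

lemma Nv.sum {κ : Type*} (s : Finset κ) {x : κ → Aut B → W.H (pw X n)}
    (hx : ∀ i ∈ s, Nv e hB E n (x i)) : Nv e hB E n fun h => ∑ i ∈ s, x i h := by
  classical
  induction s using Finset.induction_on with
  | empty => simpa using Nv.zero
  | insert i s hi ih =>
    simp only [Finset.sum_insert hi]
    exact (hx i (Finset.mem_insert_self _ _)).add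
      (ih fun j hj => hx j (Finset.mem_insert_of_mem hj))

lemma Nv.bas (J : Fin (n + 1) → ι) : Nv e hB E n fun h => wb (eh e hB h) n J := by
  intro I
  have h1 : (fun h => tn (eh e hB h) n (wb (eh e hB h) n J) I) =
      fun _ => (Pi.single J (1 : W.K) : (Fin (n + 1) → ι) → W.K) I := by
    funext h
    rw [tn_wb]
  rw [h1]
  exact const_mem _

/-- The algebra contains the values of linear constructions if it contains the values at the
basis. -/
lemma Nv.lin {x : Aut B → W.H (pw X n)} (hx : Nv e hB E n x) {G : Aut B → W.H (pw X n) → W.K}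
    (hG : ∀ h, ∃ g : W.H (pw X n) →ₗ[W.K] W.K, ∀ y, G h y = g y)
    (hb : ∀ J, (fun h => G h (wb (eh e hB h) n J)) ∈ E) :
    (fun h => G h (x h)) ∈ E := by
  have h1 : (fun h => G h (x h)) = ∑ J, (fun h => tn (eh e hB h) n (x h) J) *
      fun h => G h (wb (eh e hB h) n J) := by
    funext h
    obtain ⟨g, hg⟩ := hG h
    rw [hg, Finset.sum_apply]
    conv_lhs => rw [tn_sum (eh e hB h) n (x h), map_sum]
    refine Finset.sum_congr rfl fun J _ => ?_
    rw [map_smul, smul_eq_mul, Pi.mul_apply, hg]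
  rw [h1]
  exact Subalgebra.sum_mem _ fun J _ => Subalgebra.mul_mem _ (hx J) (hb J)

/-- The same for linear maps to the cohomology of another power. -/
lemma Nv.map {m : ℕ} {x : Aut B → W.H (pw X n)} (hx : Nv e hB E n x)
    {G : Aut B → W.H (pw X n) → W.H (pw X m)}
    (hG : ∀ h, ∃ g : W.H (pw X n) →ₗ[W.K] W.H (pw X m), ∀ y, G h y = g y)
    (hb : ∀ J, Nv e hB E m fun h => G h (wb (eh e hB h) n J)) :
    Nv e hB E m fun h => G h (x h) := by
  have h1 : (fun h => G h (x h)) = fun h => ∑ J, tn (eh e hB h) n (x h) J •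
      G h (wb (eh e hB h) n J) := by
    funext h
    obtain ⟨g, hg⟩ := hG h
    rw [hg]
    conv_lhs => rw [tn_sum (eh e hB h) n (x h), map_sum]
    refine Finset.sum_congr rfl fun J _ => ?_
    rw [map_smul, hg]
  rw [h1]
  exact Nv.sum _ fun J _ => (hb J).smul (hx J)

end Pool.Agent.Q55.Nr
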