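import Pool.Agent.Q55.Nr.Fam

/-!
# Products of classes whose coordinates belong to an algebra of functions
-/

open CategoryTheory AlgebraicGeometry TensorProduct

set_option linter.unusedSectionVars false

universe u v

namespace Pool.Agent.Q55.Nr

open Module Matrix
open Pool.Agent.H914 Pool.Agent.H914.VarClass Pool.Agent.H914.VarClass.Obj
  Pool.Agent.H914.WeilCohomology
open Pool.Agent.Y133.Half Pool.Agent.Q60.ED Pool.Agent.Q60.TD Pool.Agent.H281R3.HT
  Pool.Agent.H447 Pool.Agent.Q55 Pool.Agent.Q55.Hs Pool.Agent.Q60.NP Pool.Agent.Q55.Ke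
open Pool.Agent.Q60.HD (wd wd_zero wd_succ wd_map wd_prj wd_append wd_PH wb_PH sum_append' wb_xp)

variable {k : Type u} [Field k] {𝒱 : VarClass k} {ops : CycleOps 𝒱}

variable {W : WeilCohomology.{u, 0} ops} {X Y Z : 𝒱.Obj} {ι : Type} [Fintype ι] [DecidableEq ι]
  {e : Basis ι W.K (W.H X)} {a : ι → ℕ} {B : Matrix ι ι W.K} {hB : B.det ≠ 0}
  {E : Subalgebra W.K (Aut B → W.K)}

/-- The gram matrices of the trace form. -/
noncomputable def gam (e : Basis ι W.K (W.H X)) (n : ℕ) :
    Matrix (Fin (n + 1) → ι) (Fin (n + 1) → ι) W.K :=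
  Matrix.of fun I J => W.tr (pw X n) (wb e n I * wb e n J)

lemma gam_eh (hB : B.det ≠ 0) (h : Aut B) (n : ℕ) :
    gam (eh e hB h) n = (TP ((h : Matrix ι ι W.K)⁻¹) (n + 1))ᵀ * gam e n *
      TP ((h : Matrix ι ι W.K)⁻¹) (n + 1) := by
  ext I J
  rw [gam, Matrix.of_apply, wb_eh, wb_eh, Finset.sum_mul_sum, map_sum, Matrix.mul_apply]
  simp only [map_sum, smul_mul_smul_comm, map_smul, smul_eq_mul, Matrix.mul_apply,
    Finset.sum_mul, transpose_apply]
  rw [Finset.sum_comm]
  refine Finset.sum_congr rfl fun L _ => Finset.sum_congr rfl fun M _ => ?_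
  rw [gam, Matrix.of_apply]
  ring

lemma gam_det_ne (n : ℕ) : (gam e n).det ≠ 0 := by
  intro h0
  obtain ⟨v, hv, hv0⟩ := Matrix.exists_vecMul_eq_zero_iff.2 h0
  apply hv
  have h1 : clsK e (prj X n) v = 0 := by
    apply W.nondeg
    intro y
    rw [tn_sum e n y, Finset.mul_sum, map_sum]
    refine Finset.sum_eq_zero fun J _ => ?_
    rw [mul_smul_comm, map_smul, clsK, Finset.sum_mul, map_sum]
    have h2 := congrFun hv0 J
    rw [vecMul, dotProduct, Pi.zero_apply] at h2
    have h3 : ∑ I, W.tr (pw X n) ((v I • wd e (prj X n) I) * wb e n J) = 0 := by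
      rw [← h2]
      refine Finset.sum_congr rfl fun I _ => ?_
      rw [smul_mul_assoc, map_smul, wd_prj, smul_eq_mul]
      rfl
    rw [h3, smul_zero]
  have h2 := tn_cls e n v
  rw [h1, tn_zero] at h2
  exact h2.symm

lemma gam_det (hB : B.det ≠ 0) (h : Aut B) (n : ℕ) :
    (gam (eh e hB h) n).det = (gam e n).det := by
  rw [gam_eh, det_mul, det_mul, det_transpose]
  have h1 := TP_det_sq hB (inv_mem_Aut hB h.2) (n + 1)
  linear_combination (gam e n).det * h1

/-- A family of classes is determined by its products with the basis. -/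
lemma Nv.of_tr {n : ℕ} (hg : ∀ I J, (fun h => gam (eh e hB h) n I J) ∈ E)
    {y : Aut B → W.H (pw X n)}
    (hy : ∀ J, (fun h => W.tr (pw X n) (y h * wb (eh e hB h) n J)) ∈ E) :
    Nv e hB E n y := by
  have hinv := fun I J => inv_mem E (fun h => gam (eh e hB h) n) hg (fun h => gam_det hB h n) I J
  intro I
  have h1 : (fun h => tn (eh e hB h) n (y h) I) = ∑ J,
      (fun h => W.tr (pw X n) (y h * wb (eh e hB h) n J)) *
        fun h => (gam (eh e hB h) n)⁻¹ J I := by
    funext h
    rw [Finset.sum_apply]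
    have h2 : ∀ J, W.tr (pw X n) (y h * wb (eh e hB h) n J) =
        vecMul (tn (eh e hB h) n (y h)) (gam (eh e hB h) n) J := by
      intro J
      conv_lhs => rw [tn_sum (eh e hB h) n (y h), Finset.sum_mul, map_sum]
      rw [vecMul, dotProduct]
      refine Finset.sum_congr rfl fun L _ => ?_
      rw [smul_mul_assoc, map_smul, smul_eq_mul]
      rfl
    simp only [Pi.mul_apply, h2]
    have hu : IsUnit (gam (eh e hB h) n).det := isUnit_iff_ne_zero.2 (gam_det_ne n)
    have h3 := congrFun (congrArg (fun M => vecMul (tn (eh e hB h) n (y h)) M)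
      (mul_nonsing_inv (gam (eh e hB h) n) hu)) I
    simp only [vecMul_one] at h3
    rw [← h3, ← vecMul_vecMul, vecMul, dotProduct]
  rw [h1]
  exact Subalgebra.sum_mem _ fun J _ => Subalgebra.mul_mem _ (hy J) (hinv J I)

/-- Products are determined by the products of the elements of the basis. -/
lemma Nv.mul_of {n : ℕ} (h : ∀ I J, Nv e hB E n fun h => wb (eh e hB h) n I *
      wb (eh e hB h) n J) {x y : Aut B → W.H (pw X n)}
    (hx : Nv e hB E n x) (hy : Nv e hB E n y) : Nv e hB E n fun h => x h * y h := by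
  have h1 : ∀ I, Nv e hB E n fun h => wb (eh e hB h) n I * y h := fun I =>
    hy.map (G := fun h z => wb (eh e hB h) n I * z)
      (fun h => ⟨LinearMap.mulLeft W.K _, fun z => rfl⟩) (h I)
  exact hx.map (G := fun h z => z * y h) (fun h => ⟨LinearMap.mulRight W.K _, fun z => rfl⟩) h1

section Ext

variable {n : ℕ}

lemma tn0 (e : Basis ι W.K (W.H X)) (y : W.H X) (w : Fin 1 → ι) :
    tn e 0 y w = e.repr y (w 0) := by
  change (wb e 0).equivFun y w = _
  have h1 : (wb e 0).equivFun y w = (wb e 0).repr y w := (wb e 0).equivFun_apply y ▸ rfl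
  rw [h1]
  exact Basis.repr_reindex_apply e y (Equiv.funUnique (Fin 1) ι).symm w

lemma xp_sum_left (x : W.H Y) {κ : Type*} (s : Finset κ) (c : κ → W.K) (y : κ → W.H Z) :
    xp W x (∑ j ∈ s, c j • y j) = ∑ j ∈ s, c j • xp W x (y j) := by
  classical
  induction s using Finset.induction_on with
  | empty => rw [Finset.sum_empty, Finset.sum_empty, xp, map_zero, mul_zero]
  | insert J s hJ ih => rw [Finset.sum_insert hJ, Finset.sum_insert hJ, xp_add_right,
      xp_smul_right, ih]

lemma xp_sum_right (y : W.H Z) {κ : Type*} (s : Finset κ) (c : κ → W.K) (x : κ → W.H Y) :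
    xp W (∑ j ∈ s, c j • x j) y = ∑ j ∈ s, c j • xp W (x j) y := by
  classical
  induction s using Finset.induction_on with
  | empty => rw [Finset.sum_empty, Finset.sum_empty, xp, map_zero, zero_mul]
  | insert J s hJ ih => rw [Finset.sum_insert hJ, Finset.sum_insert hJ, xp_add_left,
      xp_smul_left, ih]

lemma tn_xp (e : Basis ι W.K (W.H X)) (n : ℕ) (x : W.H (pw X n)) (y : W.H X)
    (I : Fin (n + 2) → ι) :
    tn e (n + 1) (xp W (X := pw X n) (Y := X) x y : W.H (pw X (n + 1))) I =
      tn e n x (fun i => I i.castSucc) * e.repr y (I (Fin.last _)) := by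
  have h1 : (xp W (X := pw X n) (Y := X) x y : W.H (pw X (n + 1))) =
      ∑ I : Fin (n + 2) → ι, (tn e n x (fun i => I i.castSucc) *
        e.repr y (I (Fin.last _))) • wb e (n + 1) I := by
    rw [← (Fin.snocEquiv fun _ => ι).sum_comp, Fintype.sum_prod_type_right]
    have h2 : ∀ (J : Fin (n + 1) → ι) (j : ι), (Fin.snocEquiv fun _ => ι) (j, J) =
        (Fin.snoc J j : Fin (n + 2) → ι) := fun J j => rfl
    simp only [h2, wb_xp, Fin.snoc_castSucc, Fin.snoc_last]
    conv_lhs => rw [tn_sum e n x, ← e.sum_repr y]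
    rw [xp_sum_right]
    refine Finset.sum_congr rfl fun J _ => ?_
    rw [xp_sum_left, Finset.smul_sum]
    refine Finset.sum_congr rfl fun j _ => ?_
    rw [smul_smul]
    rfl
  have h2 : tn e (n + 1) (∑ I : Fin (n + 2) → ι, (tn e n x (fun i => I i.castSucc) *
        e.repr y (I (Fin.last _))) • wb e (n + 1) I) =
      fun I => tn e n x (fun i => I i.castSucc) * e.repr y (I (Fin.last _)) := by
    have h3 := tn_cls e (n + 1) (fun I : Fin (n + 2) → ι => tn e n x (fun i => I i.castSucc) *
        e.repr y (I (Fin.last _)))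
    rw [clsK] at h3
    simp only [wd_prj] at h3
    exact h3
  rw [h1, h2]

lemma Nv.zero_iff {y : Aut B → W.H X} : Nv e hB E 0 y ↔
    ∀ j, (fun h => (eh e hB h).repr (y h) j) ∈ E := by
  constructor
  · intro h j
    have h1 := h fun _ => j
    simp only [tn0] at h1
    exact h1
  · intro h I
    simp only [tn0]
    exact h _

lemma Nv.ext {x : Aut B → W.H (pw X n)} (hx : Nv e hB E n x) {y : Aut B → W.H X}
    (hy : Nv e hB E 0 y) : Nv e hB E (n + 1) fun h =>
      (xp W (X := pw X n) (Y := X) (x h) (y h) : W.H (pw X (n + 1))) := by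
  intro I
  have h1 : (fun h => tn (eh e hB h) (n + 1) (xp W (X := pw X n) (Y := X)
      (x h) (y h) : W.H (pw X (n + 1))) I) =
      (fun h => tn (eh e hB h) n (x h) fun i => I i.castSucc) *
        fun h => (eh e hB h).repr (y h) (I (Fin.last _)) := by
    funext h
    rw [tn_xp, Pi.mul_apply]
  rw [h1]
  exact Subalgebra.mul_mem _ (hx _) (Nv.zero_iff.1 hy _)

end Ext

/-- Products of classes on the powers. -/
lemma Nv.mul_all (hBT : Bᵀ = B * sgm W.K a) (he : ∀ j, e j ∈ PH W X (a j))
    (h0 : ∀ i j, Nv e hB E 0 fun h => (eh e hB h i * eh e hB h j : W.H X)) :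
    ∀ (n : ℕ) (x y : Aut B → W.H (pw X n)), Nv e hB E n x → Nv e hB E n y →
      Nv e hB E n fun h => x h * y h
  | 0, x, y, hx, hy => Nv.mul_of (fun I J => by
      simp only [wb_zero]
      exact h0 _ _) hx hy
  | n + 1, x, y, hx, hy => by
    refine Nv.mul_of (fun I J => ?_) hx hy
    have ih := Nv.mul_all hBT he h0 n
    have h1 : ∀ h, wb (eh e hB h) (n + 1) I * wb (eh e hB h) (n + 1) J =
        (fun _ => (-1 : W.K) ^ (a (I (Fin.last _)) * ∑ i, a (J (Fin.castSucc i)))) h •
          (xp W (X := pw X n) (Y := X)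
            (wb (eh e hB h) n (fun i => I i.castSucc) * wb (eh e hB h) n fun i => J i.castSucc)
            (eh e hB h (I (Fin.last _)) * eh e hB h (J (Fin.last _))) :
              W.H (pw X (n + 1))) := by
      intro h
      rw [wb_xp, wb_xp]
      exact xp_mul _ _ _ _ (eh_PH e hB hBT he h _) (wb_PH _ (eh_PH e hB hBT he h) n _)
    simp only [h1]
    exact ((ih _ _ (Nv.bas _) (Nv.bas _)).ext (h0 _ _)).smul (const_mem _)

end Pool.Agent.Q55.Nr
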