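import Pool.Agent.Q55.Nr.Fam2

/-!
# The classes whose coordinates belong to an algebra of functions form a closed family
-/

open CategoryTheory AlgebraicGeometry TensorProduct

set_option linter.unusedSectionVars false

universe u v

namespace Pool.Agent.Q55.Nr

open Module Matrix
open Pool.Agent.H914 Pool.Agent.H914.VarClass Pool.Agent.H914.VarClass.Obj
  Pool.Agent.H914.WeilCohomology
open Pool.Agent.Y133.Half Pool.Agent.Q60.ED Pool.Agent.Q60.TD Pool.Agent.H281R3.HT
  Pool.Agent.H447 Pool.Agent.Q55 Pool.Agent.Q55.Hs Pool.Agent.Q60.NP Pool.Agent.Q55.Ke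
open Pool.Agent.Q60.HD (wd wd_zero wd_succ wd_map wd_prj wd_append wd_PH wb_PH sum_append' wb_xp)

lemma bf_tpow_gen {K : Type} [Field K] {ι : Type} [Fintype ι] [DecidableEq ι] (Q g : Matrix ι ι K)
    (i : ℕ) (v w : (Fin i → ι) → K) : bf (TP Q i) (tpow g i v) (tpow g i w) =
      bf (TP (gᵀ * Q * g) i) v w := by
  have h1 : (TP g i).transpose * TP Q i * TP g i = TP (gᵀ * Q * g) i := by
    rw [← TP_transpose, ← TP_mul, ← TP_mul]
  rw [bf_eq, bf_eq, tpow_eq, tpow_eq, ← h1, ← Matrix.mulVec_mulVec, ← Matrix.mulVec_mulVec,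
    Matrix.dotProduct_mulVec v, Matrix.vecMul_transpose]

variable {k : Type u} [Field k] {𝒱 : VarClass k} {ops : CycleOps 𝒱}

variable {W : WeilCohomology.{u, 0} ops} {X Y Z : 𝒱.Obj} {ι : Type} [Fintype ι] [DecidableEq ι]
  {e : Basis ι W.K (W.H X)} {a : ι → ℕ} {B : Matrix ι ι W.K} {hB : B.det ≠ 0}
  {E : Subalgebra W.K (Aut B → W.K)} {S : Sys W}

lemma QW_eh (hB : B.det ≠ 0) (h : Aut B) : QW (eh e hB h) =
    ((h : Matrix ι ι W.K)⁻¹)ᵀ * QW e * (h : Matrix ι ι W.K)⁻¹ := by
  ext i j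
  rw [QW_apply, eh_apply, eh_apply, Finset.sum_mul_sum, map_sum, Matrix.mul_apply]
  simp only [map_sum, smul_mul_smul_comm, map_smul, smul_eq_mul, Matrix.mul_apply,
    Finset.sum_mul, transpose_apply]
  rw [Finset.sum_comm]
  refine Finset.sum_congr rfl fun L _ => Finset.sum_congr rfl fun M _ => ?_
  rw [QW_apply]
  ring

section

variable (he : ∀ j, e j ∈ PH W X (a j)) (hpar : par (W.isInternal X) ∈ S.Op X X)
  (hE : ∀ m ≤ 3, ∀ s ∈ crdK e S m, ∀ I, cf B s I ∈ E)

include he hpar hE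

/-- The coordinates of the trace form. -/
lemma QW_mem (i j : ι) : (fun h => QW (eh e hB h) i j) ∈ E := by
  have hQ := QW_det e S he
  have hQu := isUnit_iff_ne_zero.2 hQ
  have hom := (cs e he hpar).om
  have h1 : ∀ i j, (fun h : Aut B => ((h : Matrix ι ι W.K) * (QW e)⁻¹ *
      (h : Matrix ι ι W.K)ᵀ) i j) ∈ E := by
    intro i j
    have h2 := hE 2 (by norm_num) _ hom ![i, j]
    have h3 : cf B (fun w : Fin 2 → ι => (QW e)⁻¹ (w 0) (w 1)) ![i, j] =
        fun h : Aut B => ((h : Matrix ι ι W.K) * (QW e)⁻¹ * (h : Matrix ι ι W.K)ᵀ) i j := by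
      funext h
      rw [cf_apply]
      exact congrFun (congrFun (tpow_two (h : Matrix ι ι W.K)
        (fun w : Fin 2 → ι => (QW e)⁻¹ (w 0) (w 1))) i) j
    rwa [h3] at h2
  have h2 := inv_mem E (fun h : Aut B => (h : Matrix ι ι W.K) * (QW e)⁻¹ *
      (h : Matrix ι ι W.K)ᵀ) h1 (d := ((QW e)⁻¹).det) (fun h => by
    rw [det_mul, det_mul, det_transpose]
    have h3 := Aut_det_sq hB h.2
    linear_combination ((QW e)⁻¹).det * h3) i j
  have h3 : (fun h => QW (eh e hB h) i j) = fun h : Aut B => ((h : Matrix ι ι W.K) *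
      (QW e)⁻¹ * (h : Matrix ι ι W.K)ᵀ)⁻¹ i j := by
    funext h
    have hu := isUnit_iff_ne_zero.2 (det_Aut hB h.2)
    refine congrFun (congrFun ?_ i) j
    rw [QW_eh]
    symm
    apply inv_eq_left_inv
    calc ((h : Matrix ι ι W.K)⁻¹)ᵀ * QW e * (h : Matrix ι ι W.K)⁻¹ *
          ((h : Matrix ι ι W.K) * (QW e)⁻¹ * (h : Matrix ι ι W.K)ᵀ)
        = ((h : Matrix ι ι W.K)⁻¹)ᵀ * (QW e * ((h : Matrix ι ι W.K)⁻¹ * (h : Matrix ι ι W.K)) *
          (QW e)⁻¹) * (h : Matrix ι ι W.K)ᵀ := by simp only [Matrix.mul_assoc]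
      _ = 1 := by
        rw [nonsing_inv_mul _ hu, Matrix.mul_one, mul_nonsing_inv _ hQu, Matrix.mul_one,
          ← transpose_mul, mul_nonsing_inv _ hu, transpose_one]
  rw [h3]
  exact h2

/-- The products of three elements of the basis. -/
lemma tr3_mem (i j l : ι) : (fun h => W.tr X (eh e hB h i * (eh e hB h j * eh e hB h l))) ∈ E := by
  set d : X ⟶ pw X 2 := liftN X 2 fun _ => 𝟙 X with hd
  obtain ⟨v, hv, hvb⟩ := exists_lower e he hpar 2 (S.push d (S.one X))
  have h4 : ∀ t : (Fin 3 → ι) → W.K, W.tr (pw X 2) (W.push d 1 * clsK e (prj X 2) t) =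
      W.tr X (clsK e (fun _ : Fin 3 => 𝟙 X) t) := by
    intro t
    rw [W.tr_push, one_mul, clsK_map]
    congr 2
    funext i
    exact liftN_prj 2 _ i
  have h6 : ∀ (e' : Basis ι W.K (W.H X)) (J : Fin 3 → ι),
      clsK e' (fun _ : Fin 3 => 𝟙 X) (Pi.single J 1) = e' (J 0) * (e' (J 1) * e' (J 2)) := by
    intro e' J
    rw [clsK, Finset.sum_eq_single J]
    · rw [Pi.single_eq_same, one_smul, wd_succ, wd_succ, wd_succ, wd_zero, mul_one,
        W.map_id, W.map_id, W.map_id]
      rfl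
    · intro J' _ hJ
      rw [Pi.single_eq_of_ne hJ, zero_smul]
    · intro h; exact absurd (Finset.mem_univ _) h
  have h7 : (fun h => W.tr X (eh e hB h i * (eh e hB h j * eh e hB h l))) =
      ∑ I : Fin 3 → ι, cf B v I * ∏ k, fun h => QW (eh e hB h) (I k) (![i, j, l] k) := by
    funext h
    have hu := isUnit_iff_ne_zero.2 (det_Aut hB h.2)
    have h8 := h6 (eh e hB h) ![i, j, l]
    have h9 : W.tr X (eh e hB h i * (eh e hB h j * eh e hB h l)) =
        bf (TP (QW (eh e hB h)) 3) (tpow (h : Matrix ι ι W.K) 3 v) (Pi.single ![i, j, l] 1) := by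
      have h10 : (eh e hB h i * (eh e hB h j * eh e hB h l)) =
          clsK e (fun _ : Fin 3 => 𝟙 X) (tpow ((h : Matrix ι ι W.K)⁻¹) 3
            (Pi.single ![i, j, l] 1)) := by
        rw [← clsK_eh e hB h]
        exact h8.symm
      rw [h10, ← h4, ← hvb, QW_eh, ← bf_tpow_gen, ← tpow_mul, nonsing_inv_mul _ hu, tpow_one]
    rw [h9, bf, Finset.sum_apply]
    refine Finset.sum_congr rfl fun I _ => ?_
    rw [Finset.sum_eq_single ![i, j, l]]
    · rw [Pi.single_eq_same, mul_one, Pi.mul_apply, Finset.prod_apply, TP_apply, cf_apply]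
    · intro J' _ hJ
      rw [Pi.single_eq_of_ne hJ, mul_zero]
    · intro h; exact absurd (Finset.mem_univ _) h
  rw [h7]
  exact Subalgebra.sum_mem _ fun I _ => Subalgebra.mul_mem _ (hE 3 le_rfl v hv I)
    (Subalgebra.prod_mem _ fun k _ => QW_mem he hpar hE _ _)

lemma gam0_mem (I J : Fin 1 → ι) : (fun h => gam (eh e hB h) 0 I J) ∈ E := by
  have h1 : (fun h => gam (eh e hB h) 0 I J) = fun h => QW (eh e hB h) (I 0) (J 0) := by
    funext h
    rw [gam, Matrix.of_apply, wb_zero, wb_zero]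
    rfl
  rw [h1]
  exact QW_mem he hpar hE _ _

lemma Nv.basis_mul (i j : ι) : Nv e hB E 0 fun h => (eh e hB h i * eh e hB h j : W.H X) := by
  refine Nv.of_tr (gam0_mem he hpar hE) fun J => ?_
  refine (congrArg (· ∈ E) (funext fun h => ?_)).mpr (tr3_mem (hB := hB) he hpar hE i j (J 0))
  rw [wb_zero]
  change W.tr X (eh e hB h i * eh e hB h j * eh e hB h (J 0)) = _
  rw [mul_assoc]

/-- The unit. -/
lemma Nv.one0 : Nv e hB E 0 fun _ => (1 : W.H X) := by
  refine (Nv.const_iff (c := (1 : W.H (pw X 0)))).2 fun I => hE 1 (by norm_num) _ ?_ I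
  rw [mem_crdK_succ, clsK_tn]
  exact S.one _

lemma Nv.one (n : ℕ) : Nv e hB E n fun _ => (1 : W.H (pw X n)) := by
  induction n with
  | zero => exact Nv.one0 he hpar hE
  | succ n ih =>
    have h1 := ih.ext (Nv.one0 (hB := hB) he hpar hE)
    have h2 : (xp W (X := pw X n) (Y := X) 1 1 : W.H (pw X (n + 1))) = 1 := by
      rw [xp, map_one, map_one, mul_one]
    rwa [h2] at h1

lemma Nv.prj {y : Aut B → W.H X} (hy : Nv e hB E 0 y) (n : ℕ) (i : Fin (n + 1)) :
    Nv e hB E n fun h => W.map (prj X n i) (y h) := by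
  induction n with
  | zero =>
    have h1 : ∀ z : W.H X, W.map (Pool.Agent.Y133.Half.prj X 0 i) z = z := fun z => by
      rw [prj_zero]
      exact W.map_id X z
    simp only [h1]
    exact hy
  | succ n ih =>
    induction i using Fin.lastCases with
    | last =>
      have h1 := (Nv.one (hB := hB) he hpar hE n).ext hy
      have h2 : ∀ h, (xp W (X := pw X n) (Y := X) 1 (y h) : W.H (pw X (n + 1))) =
          W.map (Pool.Agent.Y133.Half.prj X (n + 1) (Fin.last _)) (y h) := by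
        intro h
        rw [xp, map_one, one_mul, prj_last]
        rfl
      simp only [h2] at h1
      exact h1
    | cast i =>
      have h1 := (ih i).ext (Nv.one0 (hB := hB) he hpar hE)
      have h2 : ∀ h, (xp W (X := pw X n) (Y := X) (W.map (Pool.Agent.Y133.Half.prj X n i) (y h))
          1 : W.H (pw X (n + 1))) =
          W.map (Pool.Agent.Y133.Half.prj X (n + 1) i.castSucc) (y h) := by
        intro h
        rw [xp, map_one, mul_one, prj_castSucc]
        exact (W.map_comp _ _ _).symm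
      simp only [h2] at h1
      exact h1

variable (hBT : Bᵀ = B * sgm W.K a)

include hBT

lemma Nv.mul {n : ℕ} {x y : Aut B → W.H (pw X n)} (hx : Nv e hB E n x) (hy : Nv e hB E n y) :
    Nv e hB E n fun h => x h * y h :=
  Nv.mul_all hBT he (fun i j => Nv.basis_mul he hpar hE i j) n x y hx hy

lemma Nv.prod {n : ℕ} : ∀ (N : ℕ) (y : Fin N → Aut B → W.H (pw X n)),
    (∀ i, Nv e hB E n (y i)) → Nv e hB E n fun h => (List.ofFn fun i => y i h).prod
  | 0, y, _ => by
    simp only [List.ofFn_zero, List.prod_nil]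
    exact Nv.one he hpar hE n
  | N + 1, y, hy => by
    simp only [List.ofFn_succ, List.prod_cons]
    exact Nv.mul he hpar hE hBT (hy 0) (Nv.prod N (fun i => y i.succ) fun i => hy i.succ)

/-- Pull-backs. -/
lemma Nv.pull {m n : ℕ} {f : pw X m ⟶ pw X n} (hf : IsCoordinate f)
    {x : Aut B → W.H (pw X n)} (hx : Nv e hB E n x) : Nv e hB E m fun h => W.map f (x h) := by
  obtain ⟨σ, hσ⟩ := hf
  refine hx.map (G := fun _ z => W.map f z) (fun _ => ⟨(W.map f).toLinearMap, fun _ => rfl⟩)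
    fun J => ?_
  have h1 : ∀ h, W.map f (wb (eh e hB h) n J) =
      (List.ofFn fun i => W.map (Pool.Agent.Y133.Half.prj X m (σ i)) (eh e hB h (J i))).prod := by
    intro h
    rw [wb_eq, map_list_prod, List.map_ofFn]
    congr 2
    funext i
    rw [Function.comp_apply, ← W.map_comp, hσ]
  simp only [h1]
  refine Nv.prod he hpar hE hBT _ (fun i h => W.map (Pool.Agent.Y133.Half.prj X m (σ i))
    (eh e hB h (J i))) fun i => Nv.prj he hpar hE ?_ _ _
  have h2 := Nv.bas (e := e) (hB := hB) (E := E) (n := 0) fun _ => J i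
  simp only [wb_zero] at h2
  exact h2

omit hBT in
lemma tr_bas0 (j : ι) : (fun h => W.tr X (eh e hB h j)) ∈ E := by
  have h1 := Nv.zero_iff.1 (Nv.one0 (e := e) (hB := hB) he hpar hE)
  have h2 : (fun h => W.tr X (eh e hB h j)) = ∑ i, (fun h => (eh e hB h).repr (1 : W.H X) i) *
      fun h => QW (eh e hB h) i j := by
    funext h
    rw [Finset.sum_apply]
    conv_lhs => rw [← one_mul (eh e hB h j), ← (eh e hB h).sum_repr (1 : W.H X),
      Finset.sum_mul, map_sum]
    refine Finset.sum_congr rfl fun i _ => ?_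
    rw [smul_mul_assoc, map_smul, smul_eq_mul]
    rfl
  rw [h2]
  exact Subalgebra.sum_mem _ fun i _ => Subalgebra.mul_mem _ (h1 i) (QW_mem he hpar hE _ _)

omit hBT in
lemma tr_bas (n : ℕ) (J : Fin (n + 1) → ι) :
    (fun h => W.tr (pw X n) (wb (eh e hB h) n J)) ∈ E := by
  induction n with
  | zero =>
    simp only [wb_zero]
    exact tr_bas0 he hpar hE _
  | succ n ih =>
    have h2 : (fun h => W.tr (pw X (n + 1)) (wb (eh e hB h) (n + 1) J)) =
        (fun h => W.tr (pw X n) (wb (eh e hB h) n fun i => J i.castSucc)) *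
          fun h => W.tr X (eh e hB h (J (Fin.last _))) := by
      funext h
      rw [wb_xp, Pi.mul_apply]
      exact tr_xp _ _
    rw [h2]
    exact Subalgebra.mul_mem _ (ih _) (tr_bas0 he hpar hE _)

omit hBT in
lemma Nv.tr {n : ℕ} {x : Aut B → W.H (pw X n)} (hx : Nv e hB E n x) :
    (fun h => W.tr (pw X n) (x h)) ∈ E :=
  hx.lin (G := fun h z => W.tr (pw X n) z) (fun h => ⟨W.tr (pw X n), fun y => rfl⟩)
    fun J => tr_bas he hpar hE n J

/-- Push-forwards. -/
lemma Nv.push {m n : ℕ} {f : pw X m ⟶ pw X n} (hf : IsCoordinate f)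
    {x : Aut B → W.H (pw X m)} (hx : Nv e hB E m x) : Nv e hB E n fun h => W.push f (x h) := by
  refine Nv.of_tr (fun I J => ?_) fun J => ?_
  · exact Nv.tr he hpar hE (Nv.mul he hpar hE hBT (Nv.bas I) (Nv.bas J))
  · have h1 : (fun h => W.tr (pw X n) (W.push f (x h) * wb (eh e hB h) n J)) =
        fun h => W.tr (pw X m) (x h * W.map f (wb (eh e hB h) n J)) := by
      funext h
      rw [W.tr_push]
    rw [h1]
    exact Nv.tr he hpar hE (Nv.mul he hpar hE hBT hx
      (Nv.pull he hpar hE hBT hf (Nv.bas J)))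

end

variable (e E)

/-- The classes whose coordinates belong to the algebra. -/
noncomputable def Vfam (n : ℕ) : Submodule W.K (W.H (pw X n)) where
  carrier := {c | ∀ I, cf B (tn e n c) I ∈ E}
  add_mem' {a b} ha hb I := by
    rw [tn_add, cf_add]
    exact Subalgebra.add_mem _ (ha I) (hb I)
  zero_mem' I := by
    rw [tn_zero, cf_zero]
    exact Subalgebra.zero_mem _
  smul_mem' r a ha I := by
    rw [tn_smul, cf_smul]
    exact Subalgebra.smul_mem _ (ha I) r

variable {e E}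

lemma mem_Vfam {n : ℕ} {c : W.H (pw X n)} : c ∈ Vfam e E n ↔ ∀ I, cf B (tn e n c) I ∈ E :=
  Iff.rfl

lemma mem_Vfam_iff (hB : B.det ≠ 0) {n : ℕ} {c : W.H (pw X n)} :
    c ∈ Vfam e E n ↔ Nv e hB E n fun _ => c := mem_Vfam.trans Nv.const_iff.symm

/-- **The classes whose coordinates belong to the algebra form a closed family.** -/
theorem Vfam_closed (hB : B.det ≠ 0) (hBT : Bᵀ = B * sgm W.K a)
    (he : ∀ j, e j ∈ PH W X (a j)) (hpar : par (W.isInternal X) ∈ S.Op X X)
    (hE : ∀ m ≤ 3, ∀ s ∈ crdK e S m, ∀ I, cf B s I ∈ E) {N : ℕ}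
    (hN : ∀ j z, (pw X N).IsCyc j z → W.cl (pw X N) z ∈ Vfam e E N) :
    IsClosedFamily N (Vfam e E) where
  cycle := hN
  mul n a ha b hb := by
    rw [mem_Vfam_iff hB] at ha hb ⊢
    exact Nv.mul he hpar hE hBT ha hb
  pull f hf a ha := by
    rw [mem_Vfam_iff hB] at ha ⊢
    exact Nv.pull he hpar hE hBT hf ha
  push f hf a ha := by
    rw [mem_Vfam_iff hB] at ha ⊢
    exact Nv.push he hpar hE hBT hf ha

end Pool.Agent.Q55.Nr
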