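import Pool.Agent.Q55.Nr.Phi

/-!
# The numerical realisation of a system of tensors
-/

set_option linter.unusedSectionVars false

namespace Pool.Agent.Q55.Nr

open Module Matrix Pool.Agent.Q60.ED Pool.Agent.Q60.NP Pool.Agent.Q55.Ke
open Pool.Agent.W552 (RatSub)

variable {K : Type} [Field K] {ι : Type} [Fintype ι] [DecidableEq ι] {B : Matrix ι ι K}

/-- A numerical character of a system of tensors. -/
structure NC (C : CSys B) where
  /-- the character -/
  φ : FA C →ₐ[K] K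
  rad : ∀ n (t : (Fin n → ι) → K) (ht : t ∈ C.rad n) (I : Fin n → ι),
    φ ⟨cf B t I, cf_mem ht.1 I⟩ = 0

/-- The translation of the functions on the group. -/
def trn (κ : Aut B) : (Aut B → K) →ₐ[K] (Aut B → K) where
  toFun f h := f ⟨(κ : Matrix ι ι K) * h, mul_mem_Aut κ.2 h.2⟩
  map_one' := rfl
  map_mul' _ _ := rfl
  map_zero' := rfl
  map_add' _ _ := rfl
  commutes' _ := rfl

lemma trn_apply (κ : Aut B) (f : Aut B → K) (h : Aut B) :
    trn κ f h = f ⟨(κ : Matrix ι ι K) * h, mul_mem_Aut κ.2 h.2⟩ := rfl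

lemma trn_cf (κ : Aut B) {n : ℕ} (t : (Fin n → ι) → K) (I : Fin n → ι) :
    trn κ (cf B t I) = ∑ J, (∏ k, (κ : Matrix ι ι K) (I k) (J k)) • cf B t J := by
  funext h
  rw [trn_apply, cf_apply, tpow_mul, tpow_apply, Finset.sum_apply]
  rfl

namespace NC

variable {C : CSys B} (Φ : NC C)

open Classical in
/-- The extension of the character by zero. -/
noncomputable def ev (f : Aut B → K) : K := if h : f ∈ FA C then Φ.φ ⟨f, h⟩ else 0

variable {Φ}

lemma ev_of {f : Aut B → K} (h : f ∈ FA C) : Φ.ev f = Φ.φ ⟨f, h⟩ := by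
  rw [ev, dif_pos h]

lemma ev_add {f g : Aut B → K} (hf : f ∈ FA C) (hg : g ∈ FA C) :
    Φ.ev (f + g) = Φ.ev f + Φ.ev g := by
  rw [ev_of hf, ev_of hg, ev_of (Subalgebra.add_mem _ hf hg), ← map_add]
  rfl

lemma ev_mul {f g : Aut B → K} (hf : f ∈ FA C) (hg : g ∈ FA C) :
    Φ.ev (f * g) = Φ.ev f * Φ.ev g := by
  rw [ev_of hf, ev_of hg, ev_of (Subalgebra.mul_mem _ hf hg), ← map_mul]
  rfl

lemma ev_smul (c : K) {f : Aut B → K} (hf : f ∈ FA C) : Φ.ev (c • f) = c * Φ.ev f := by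
  rw [ev_of hf, ev_of (Subalgebra.smul_mem _ hf c), ← smul_eq_mul, ← map_smul]
  rfl

lemma ev_algebraMap (c : K) : Φ.ev (algebraMap K (Aut B → K) c) = c := by
  rw [ev_of (Subalgebra.algebraMap_mem _ c)]
  exact Φ.φ.commutes c

lemma ev_zero : Φ.ev 0 = 0 := by
  rw [ev_of (Subalgebra.zero_mem _)]
  exact map_zero Φ.φ

lemma ev_sum {κ : Type*} (s : Finset κ) {f : κ → Aut B → K} (hf : ∀ i ∈ s, f i ∈ FA C) :
    Φ.ev (∑ i ∈ s, f i) = ∑ i ∈ s, Φ.ev (f i) := by
  classical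
  induction s using Finset.induction_on with
  | empty => rw [Finset.sum_empty, Finset.sum_empty, ev_zero]
  | insert i s hi ih =>
    rw [Finset.sum_insert hi, Finset.sum_insert hi, ev_add (hf i (Finset.mem_insert_self _ _))
      (Subalgebra.sum_mem _ fun j hj => hf j (Finset.mem_insert_of_mem hj)),
      ih fun j hj => hf j (Finset.mem_insert_of_mem hj)]

variable (Φ)

/-- The numerical realisation of the tensors. -/
noncomputable def lam {n : ℕ} (t : (Fin n → ι) → K) : (Fin n → ι) → K := fun I => Φ.ev (cf B t I)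

variable {Φ} {m n : ℕ}

lemma lam_apply (t : (Fin n → ι) → K) (I : Fin n → ι) : Φ.lam t I = Φ.ev (cf B t I) := rfl

lemma lam_add {s t : (Fin n → ι) → K} (hs : s ∈ C.S n) (ht : t ∈ C.S n) :
    Φ.lam (s + t) = Φ.lam s + Φ.lam t := by
  funext I
  rw [Pi.add_apply, lam_apply, lam_apply, lam_apply, cf_add, ev_add (cf_mem hs I) (cf_mem ht I)]

lemma lam_smul (c : K) {t : (Fin n → ι) → K} (ht : t ∈ C.S n) :
    Φ.lam (c • t) = c • Φ.lam t := by
  funext I
  rw [Pi.smul_apply, lam_apply, lam_apply, cf_smul, ev_smul c (cf_mem ht I), smul_eq_mul]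

lemma lam_zero : Φ.lam (0 : (Fin n → ι) → K) = 0 := by
  funext I
  rw [lam_apply, cf_zero, ev_zero, Pi.zero_apply]

lemma lam_tmul {s : (Fin m → ι) → K} {t : (Fin n → ι) → K} (hs : s ∈ C.S m) (ht : t ∈ C.S n) :
    Φ.lam (tmul s t) = tmul (Φ.lam s) (Φ.lam t) := by
  funext I
  rw [lam_apply, cf_tmul, ev_mul (cf_mem hs _) (cf_mem ht _)]
  rfl

lemma lam_perm (σ : Equiv.Perm (Fin n)) (t : (Fin n → ι) → K) :
    Φ.lam (fun J => t (J ∘ σ)) = fun I => Φ.lam t (I ∘ σ) := by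
  funext I
  rw [lam_apply, cf_perm, lam_apply]

lemma lam_ctr (hB : B.det ≠ 0) {s : (Fin m → ι) → K} {t : (Fin (m + n) → ι) → K}
    (hs : s ∈ C.S m) (ht : t ∈ C.S (m + n)) :
    Φ.lam (ctr B s t) = ctr B (Φ.lam s) (Φ.lam t) := by
  funext J
  have h1 : ∀ I I', TP B m I I' • (cf B s I * cf B t (Fin.append I' J)) ∈ FA C := fun I I' =>
    Subalgebra.smul_mem _ (Subalgebra.mul_mem _ (cf_mem hs I) (cf_mem ht _)) _
  rw [lam_apply, cf_ctr hB]
  refine (ev_sum Finset.univ fun I _ => Subalgebra.sum_mem _ fun I' _ => h1 I I').trans ?_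
  rw [ctr]
  refine Finset.sum_congr rfl fun I _ => ?_
  refine (ev_sum Finset.univ fun I' _ => h1 I I').trans ?_
  refine Finset.sum_congr rfl fun I' _ => ?_
  rw [ev_smul _ (Subalgebra.mul_mem _ (cf_mem hs I) (cf_mem ht _)),
    ev_mul (cf_mem hs I) (cf_mem ht _), lam_apply, lam_apply]
  ring

lemma lam_deg0 (t : (Fin 0 → ι) → K) : Φ.lam t = t := by
  funext I
  rw [lam_apply, cf_deg0, ev_algebraMap]

lemma lam_om (hB : B.det ≠ 0) : Φ.lam (om B) = om B := by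
  funext I
  rw [lam_apply, cf_om hB, ev_algebraMap]

lemma lam_rad {t : (Fin n → ι) → K} (ht : t ∈ C.rad n) : Φ.lam t = 0 := by
  funext I
  rw [lam_apply, ev_of (cf_mem ht.1 I), Φ.rad n t ht I, Pi.zero_apply]

lemma bf_eq_ctr (s t : (Fin n → ι) → K) :
    bf (TP B n) s t = ctr (n := 0) B s t default := by
  rw [bf, ctr]
  refine Finset.sum_congr rfl fun I _ => Finset.sum_congr rfl fun I' _ => ?_
  congr 2
  exact (Fin.append_right_nil _ _ rfl).symm

lemma bf_lam (hB : B.det ≠ 0) {s t : (Fin n → ι) → K} (hs : s ∈ C.S n) (ht : t ∈ C.S n) :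
    bf (TP B n) (Φ.lam s) (Φ.lam t) = bf (TP B n) s t := by
  rw [bf_eq_ctr, bf_eq_ctr]
  have h1 := lam_ctr (n := 0) (Φ := Φ) hB hs ht
  rw [lam_deg0] at h1
  exact (congrFun h1 default).symm

lemma lam_eq_zero (hB : B.det ≠ 0) {t : (Fin n → ι) → K} (ht : t ∈ C.S n) :
    Φ.lam t = 0 ↔ t ∈ C.rad n := by
  constructor
  · intro h
    refine ⟨ht, fun w hw => ?_⟩
    rw [← bf_lam (Φ := Φ) hB ht hw, h, bf_zero_left]
  · exact lam_rad

lemma trn_mem (κ : Aut B) {f : Aut B → K} (hf : f ∈ FA C) : trn κ f ∈ FA C := by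
  have h1 : FA C ≤ (FA C).comap (trn κ) := by
    refine Algebra.adjoin_le ?_
    rintro _ ⟨n, s, hs, I, rfl⟩
    change trn κ (cf B s I) ∈ FA C
    rw [trn_cf]
    exact Subalgebra.sum_mem _ fun J _ => Subalgebra.smul_mem _ (cf_mem hs J) _
  exact h1 hf

lemma ev_trn (κ : Aut B) {t : (Fin n → ι) → K} (ht : t ∈ C.S n) (I : Fin n → ι) :
    Φ.ev (trn κ (cf B t I)) = tpow (κ : Matrix ι ι K) n (Φ.lam t) I := by
  rw [trn_cf, ev_sum _ fun J _ => Subalgebra.smul_mem _ (cf_mem ht J) _, tpow_apply]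
  refine Finset.sum_congr rfl fun J _ => ?_
  rw [ev_smul _ (cf_mem ht J), lam_apply]

variable (Φ)

/-- The functions at which the character and its translates agree. -/
noncomputable def eqA (s : Set (Aut B)) : Subalgebra K (Aut B → K) where
  carrier := {f | f ∈ FA C ∧ ∀ κ ∈ s, Φ.ev (trn κ f) = Φ.ev f}
  mul_mem' := fun {f g} hf hg => ⟨Subalgebra.mul_mem _ hf.1 hg.1, fun κ hκ => by
    rw [map_mul, ev_mul (trn_mem κ hf.1) (trn_mem κ hg.1), ev_mul hf.1 hg.1, hf.2 κ hκ,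
      hg.2 κ hκ]⟩
  add_mem' := fun {f g} hf hg => ⟨Subalgebra.add_mem _ hf.1 hg.1, fun κ hκ => by
    rw [map_add, ev_add (trn_mem κ hf.1) (trn_mem κ hg.1), ev_add hf.1 hg.1, hf.2 κ hκ,
      hg.2 κ hκ]⟩
  algebraMap_mem' := fun c => ⟨Subalgebra.algebraMap_mem _ c, fun κ _ => by
    rw [AlgHom.commutes]⟩

variable {Φ}

lemma mem_eqA {s : Set (Aut B)} {t : (Fin n → ι) → K} (ht : t ∈ C.S n) :
    (∀ I, cf B t I ∈ Φ.eqA s) ↔ ∀ κ ∈ s, tpow (κ : Matrix ι ι K) n (Φ.lam t) = Φ.lam t := by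
  constructor
  · intro h κ hκ
    funext I
    rw [← ev_trn κ ht I]
    exact (h I).2 κ hκ
  · intro h I
    refine ⟨cf_mem ht I, fun κ hκ => ?_⟩
    rw [ev_trn κ ht I, h κ hκ, lam_apply]

lemma rad_eqA {s : Set (Aut B)} {t : (Fin n → ι) → K} (ht : t ∈ C.rad n) (I : Fin n → ι) :
    cf B t I ∈ Φ.eqA s := by
  refine (mem_eqA ht.1).2 (fun κ _ => ?_) I
  rw [lam_rad ht, map_zero]

variable (Φ)

/-- The matrices which fix the numerical realisations of the tensors of degree at most `L`. -/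
def stab (L : ℕ) : Set (Aut B) :=
  {κ | ∀ n ≤ L, ∀ t ∈ C.S n, tpow (κ : Matrix ι ι K) n (Φ.lam t) = Φ.lam t}

variable {Φ}

/-- **The stabilisers become stationary.** -/
theorem exists_level : ∃ L, ∀ κ ∈ Φ.stab L, ∀ n, ∀ t ∈ C.S n,
    tpow (κ : Matrix ι ι K) n (Φ.lam t) = Φ.lam t := by
  let I : ℕ →o Ideal (MvPolynomial (ι × ι) K) :=
    { toFun := fun L => Ideal.span {f | ∃ n ≤ L, ∃ t ∈ C.S n, ∃ J, f = ft (Φ.lam t) J}
      monotone' := fun L L' h => Ideal.span_mono (by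
        rintro _ ⟨n, hn, t, ht, J, rfl⟩
        exact ⟨n, hn.trans h, t, ht, J, rfl⟩) }
  have hI : ∀ L, I L = Ideal.span {f | ∃ n ≤ L, ∃ t ∈ C.S n, ∃ J, f = ft (Φ.lam t) J} :=
    fun L => rfl
  obtain ⟨L, hL⟩ := monotone_stabilizes_iff_noetherian.2
    (inferInstance : IsNoetherianRing (MvPolynomial (ι × ι) K)) I
  refine ⟨L, fun κ hκ n t ht => ?_⟩
  rw [← ft_eval_iff]
  intro J
  have h1 : ft (Φ.lam t) J ∈ I L := by
    rcases le_total n L with hn | hn
    · rw [hI]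
      exact Ideal.subset_span ⟨n, hn, t, ht, J, rfl⟩
    · rw [hL n hn, hI]
      exact Ideal.subset_span ⟨n, le_rfl, t, ht, J, rfl⟩
  have h2 : I L ≤ RingHom.ker (evM (κ : Matrix ι ι K)).toRingHom := by
    rw [hI, Ideal.span_le]
    rintro _ ⟨n, hn, t, ht, J, rfl⟩
    exact (ft_eval_iff _ _).2 (hκ n hn t ht) J
  exact h2 h1

end NC

/-- The numerical realisations of the rational tensors. -/
noncomputable def lamR (hB : B.det ≠ 0) (R : RS B) (Φ : NC R.span) : RS B where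
  R n t := ∃ s, R.R n s ∧ t = Φ.lam s
  rat n :=
    { zero := ⟨0, (R.rat n).zero, NC.lam_zero.symm⟩
      add := by
        rintro _ _ ⟨s, hs, rfl⟩ ⟨t, ht, rfl⟩
        exact ⟨s + t, (R.rat n).add hs ht,
          (NC.lam_add (Submodule.subset_span hs) (Submodule.subset_span ht)).symm⟩
      smul := by
        rintro q _ ⟨s, hs, rfl⟩
        exact ⟨_, (R.rat n).smul q hs, (NC.lam_smul _ (Submodule.subset_span hs)).symm⟩ }
  one := ⟨_, R.one, (NC.lam_deg0 _).symm⟩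
  mul := by
    rintro m n _ _ ⟨s, hs, rfl⟩ ⟨t, ht, rfl⟩
    exact ⟨tmul s t, R.mul hs ht,
      (NC.lam_tmul (Submodule.subset_span hs) (Submodule.subset_span ht)).symm⟩
  perm := by
    rintro n σ _ ⟨t, ht, rfl⟩
    exact ⟨_, R.perm σ ht, (NC.lam_perm σ t).symm⟩
  contr := by
    rintro m n _ _ ⟨s, hs, rfl⟩ ⟨t, ht, rfl⟩
    exact ⟨ctr B s t, R.contr hs ht,
      (NC.lam_ctr hB (Submodule.subset_span hs) (Submodule.subset_span ht)).symm⟩
  om := ⟨_, R.om, (NC.lam_om hB).symm⟩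
  zero := by
    rintro _ ⟨t, ht, rfl⟩
    rw [NC.lam_deg0]
    exact R.zero t ht
  symm := by
    rintro n _ _ ⟨s, hs, rfl⟩ ⟨t, ht, rfl⟩
    rw [NC.bf_lam hB (Submodule.subset_span hs) (Submodule.subset_span ht),
      NC.bf_lam hB (Submodule.subset_span ht) (Submodule.subset_span hs), R.symm hs ht]

lemma mem_lamR {hB : B.det ≠ 0} {R : RS B} {Φ : NC R.span} {n : ℕ} {t : (Fin n → ι) → K} :
    (lamR hB R Φ).R n t ↔ ∃ s, R.R n s ∧ t = Φ.lam s := Iff.rfl

lemma mem_span_lamR {hB : B.det ≠ 0} {R : RS B} {Φ : NC R.span} {n : ℕ}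
    {t : (Fin n → ι) → K} : t ∈ (lamR hB R Φ).span.S n ↔ ∃ s ∈ R.span.S n, t = Φ.lam s := by
  constructor
  · intro h
    rw [RS.span_S] at h
    induction h using Submodule.span_induction with
    | mem t ht =>
      obtain ⟨s, hs, rfl⟩ := ht
      exact ⟨s, Submodule.subset_span hs, rfl⟩
    | zero => exact ⟨0, Submodule.zero_mem _, NC.lam_zero.symm⟩
    | add x y _ _ hx hy =>
      obtain ⟨s, hs, rfl⟩ := hx
      obtain ⟨t, ht, rfl⟩ := hy
      exact ⟨s + t, Submodule.add_mem _ hs ht, (NC.lam_add hs ht).symm⟩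
    | smul c x _ hx =>
      obtain ⟨s, hs, rfl⟩ := hx
      exact ⟨c • s, Submodule.smul_mem _ c hs, (NC.lam_smul c hs).symm⟩
  · rintro ⟨s, hs, rfl⟩
    have key : ∀ s ∈ R.span.S n, s ∈ R.span.S n ∧ Φ.lam s ∈ (lamR hB R Φ).span.S n := by
      intro s hs
      rw [RS.span_S] at hs
      induction hs using Submodule.span_induction with
      | mem t ht => exact ⟨Submodule.subset_span ht, Submodule.subset_span ⟨t, ht, rfl⟩⟩
      | zero => exact ⟨Submodule.zero_mem _, by rw [NC.lam_zero]; exact Submodule.zero_mem _⟩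
      | add x y _ _ hx hy =>
        refine ⟨Submodule.add_mem _ hx.1 hy.1, ?_⟩
        rw [NC.lam_add hx.1 hy.1]
        exact Submodule.add_mem _ hx.2 hy.2
      | smul c x _ hx =>
        refine ⟨Submodule.smul_mem _ c hx.1, ?_⟩
        rw [NC.lam_smul c hx.1]
        exact Submodule.smul_mem _ c hx.2
    exact (key s hs).2

/-- The numerical realisation is nondegenerate. -/
theorem lamR_nd {hB : B.det ≠ 0} {R : RS B} {Φ : NC R.span} (n : ℕ) :
    ∀ v ∈ (lamR hB R Φ).span.S n, (∀ w ∈ (lamR hB R Φ).span.S n, bf (TP B n) v w = 0) →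
      v = 0 := by
  intro v hv h
  obtain ⟨s, hs, rfl⟩ := mem_span_lamR.1 hv
  refine NC.lam_rad ⟨hs, fun w hw => ?_⟩
  rw [← NC.bf_lam (Φ := Φ) hB hs hw]
  exact h _ (mem_span_lamR.2 ⟨w, hw, rfl⟩)

end Pool.Agent.Q55.Nr
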