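import Pool.Agent.Q55.Rate.Defs
import Pool.Agent.Q60.NP.PAutDefs

/-!
# Numerical equivalence and the numerical Hodge standard conjecture: definitions

All definitions are in terms of intersection numbers of cycles; no cohomology theory is used.
-/

open CategoryTheory AlgebraicGeometry

universe u

namespace Pool.Agent.Q55.Nr

open Pool.Agent.H914 Pool.Agent.H914.VarClass Pool.Agent.H914.VarClass.Obj
open Pool.Agent.Y133.Half (pw prj)
open Pool.Agent.Q60.NP (IsCoordinate)

variable {k : Type u} [Field k] {𝒱 : VarClass k} (ops : CycleOps 𝒱)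

/-- The cycle `z` of codimension `j` is numerically trivial: the degree of its intersection with
every cycle of the complementary codimension is zero. -/
def NumTriv (Z : 𝒱.Obj) (j : ℕ) (z : Z.Cycles) : Prop :=
  ∀ i w, i + j = Z.dim → Z.IsCyc i w → Z.V.degCycle (ops.mul z w) = 0

/-- The cycle `z` of codimension `j` is numerically primitive: `D ^ (d - 2 j + 1) · z` is
numerically trivial, `d = dim Z`. -/
def NumPrim (Z : 𝒱.Obj) (D : Z.Cycles) (j : ℕ) (z : Z.Cycles) : Prop :=
  NumTriv ops Z (Z.dim - j + 1) (divPow ops D (Z.dim - 2 * j + 1) z)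

/-- Numerical positivity for the cycles in the set `S`: the sign of `deg (z · z · D ^ (d - 2 j))` is
`(-1) ^ j` for all numerically primitive cycles `z` in `S` of codimension `j ≤ d / 2` which are not
numerically trivial. -/
def NumHodgeOn (Z : 𝒱.Obj) (D : Z.Cycles) (S : Set Z.Cycles) : Prop :=
  ∀ j, 2 * j ≤ Z.dim → ∀ z, Z.IsCyc j z → z ∈ S → NumPrim ops Z D j z → ¬ NumTriv ops Z j z →
    0 < (-1 : ℚ) ^ j * Z.V.degCycle (ops.mul z (divPow ops D (Z.dim - 2 * j) z))

/-- **The numerical Hodge standard conjecture** for `Z` and the divisor `D`. -/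
def NumHodge (Z : 𝒱.Obj) (D : Z.Cycles) : Prop := NumHodgeOn ops Z D Set.univ

/-- A family of sets of cycles on the powers of `X` (`pw X n` is the product of `n + 1` copies of
`X`) which contains all cycles on `pw X N` and all numerically trivial cycles, and which is closed
under linear combinations, intersection products, and pull-backs and push-forwards along the
morphisms `x ↦ (x_(σ 0), x_(σ 1), …)` (projections, permutations, diagonals). -/
structure IsNumFamily {X : 𝒱.Obj} (N : ℕ) (V : ∀ n, Set (pw X n).Cycles) : Prop where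
  cycle : ∀ j z, (pw X N).IsCyc j z → z ∈ V N
  triv : ∀ n j z, (pw X n).IsCyc j z → NumTriv ops (pw X n) j z → z ∈ V n
  add : ∀ n, ∀ y ∈ V n, ∀ z ∈ V n, y + z ∈ V n
  smul : ∀ n (q : ℚ), ∀ z ∈ V n, q • z ∈ V n
  mul : ∀ n, ∀ y ∈ V n, ∀ z ∈ V n, ops.mul y z ∈ V n
  pull : ∀ {m n} (f : pw X m ⟶ pw X n), IsCoordinate f → ∀ z ∈ V n, ops.pull f z ∈ V m
  push : ∀ {m n} (f : pw X m ⟶ pw X n), IsCoordinate f → ∀ z ∈ V m, ops.push f z ∈ V n

/-- The cycles on `pw X n` which are generated, modulo numerical equivalence, by the cycles on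
`pw X N`. -/
def genNum (X : 𝒱.Obj) (N n : ℕ) : Set (pw X n).Cycles :=
  {z | ∀ V : ∀ n, Set (pw X n).Cycles, IsNumFamily ops N V → z ∈ V n}

end Pool.Agent.Q55.Nr
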