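import Pool.Agent.Q55.Nr.NDefs
import Pool.Agent.Q55.Nr.NPart
import Pool.Agent.Q60.NP.PMain
import Pool.Agent.W552.Fr

/-!
# Numerical equivalence and the form of Hodge and Riemann
-/

open CategoryTheory AlgebraicGeometry

universe u v

namespace Pool.Agent.Q55.Nr

open Pool.Agent.H914 Pool.Agent.H914.VarClass Pool.Agent.H914.VarClass.Obj
  Pool.Agent.H914.WeilCohomology Pool.Agent.H281R3.HT Pool.Agent.H447
open Pool.Agent.W552 (AS AOp Fr st bf_apply st_apply sg_two_mul)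
open Pool.Agent.Q60.NP Pool.Agent.Q60.TD Pool.Agent.Y133.Half

variable {k : Type u} [Field k] {𝒱 : VarClass k} {ops : CycleOps 𝒱}
  {W : WeilCohomology.{u, v} ops} {X Z : 𝒱.Obj} {D : Z.Cycles}

/-- Numerical triviality in terms of classes. -/
lemma numTriv_iff {j : ℕ} {z : Z.Cycles} (hz : Z.IsCyc j z) :
    NumTriv ops Z j z ↔ W.cl Z z ∈ (algSys W).Num Z := by
  constructor
  · intro h
    refine ⟨Submodule.subset_span (Set.mem_iUnion.2 ⟨j, z, hz, rfl⟩), fun d hd => ?_⟩
    change d ∈ algSpan W Z at hd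
    induction hd using Submodule.span_induction with
    | mem x hx =>
      obtain ⟨l, w, hw, rfl⟩ := Set.mem_iUnion.1 hx
      by_cases hjl : j + l = Z.dim
      · rw [Pool.Agent.W534.tr_mul_cl' hz hw hjl, h l w (by omega) hw]
        simp
      · exact Pool.Agent.Y129.tr_mul_cl_eq hz hw hjl
    | zero => rw [mul_zero, map_zero]
    | add x y _ _ hx hy => rw [mul_add, map_add, hx, hy, add_zero]
    | smul r x _ hx => rw [mul_smul_comm, map_smul, hx, smul_zero]
  · intro h i w hi hw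
    have h1 := h.2 _ (Submodule.subset_span (Set.mem_iUnion.2 ⟨i, w, hw, rfl⟩))
    rw [Pool.Agent.W534.tr_mul_cl' hz hw (by omega)] at h1
    exact_mod_cast h1

/-- The algebraic classes form a Lefschetz structure with Hodge-Riemann relations modulo numerical
equivalence. -/
lemma npart (hD : Z.IsCyc 1 D) (hA : LefschetzA W Z D) (hH : NumHodge ops Z D) :
    NPart (W.gr Z) Z.dim (LinearMap.mulLeft W.K (W.cl Z D)) (bil W Z) (algClasses W Z)
      (fun l => {c | c ∈ algClasses W Z l ∧ c ∈ (algSys W).Num Z}) where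
  sub := by
    rintro l _ ⟨z, hz, rfl⟩
    exact W.cl_mem hz
  zero l := ⟨0, SmVar.IsCyc.zero _ _, map_zero _⟩
  add := by
    rintro l _ ⟨z, hz, rfl⟩ _ ⟨z', hz', rfl⟩
    exact ⟨z + z', hz.add hz', map_add _ _ _⟩
  smul := by
    rintro l q _ ⟨z, hz, rfl⟩
    exact ⟨q • z, hz.smul q, W.cl_smul q z⟩
  map_L := by
    rintro l _ ⟨z, hz, rfl⟩
    refine ⟨ops.mul D z, ?_, by rw [W.cl_mul]; rfl⟩
    rw [add_comm]
    exact ops.mul_mem hD hz
  hl := by
    rintro l hl _ ⟨z, hz, rfl⟩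
    obtain ⟨z', hz', h⟩ := hA l hl z hz
    exact ⟨W.cl Z z', ⟨z', hz', rfl⟩, by rw [← h, cl_divPow]⟩
  pos := by
    rintro l hl _ ⟨z, hz, rfl⟩ hp h0
    refine ⟨_, ?_, hH l hl z hz trivial ?_ fun h1 => h0 ⟨⟨z, hz, rfl⟩, (numTriv_iff hz).1 h1⟩⟩
    · rw [bil_apply, ← cl_divPow, ← W.cl_mul, W.tr_cl]
      have := ops.mul_mem hz (divPow_mem (ops := ops) hD (Z.dim - 2 * l) hz)
      rwa [show l + (l + (Z.dim - 2 * l)) = Z.dim by omega] at this
    · have h2 := divPow_mem (ops := ops) hD (Z.dim - 2 * l + 1) hz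
      rw [show l + (Z.dim - 2 * l + 1) = Z.dim - l + 1 by omega] at h2
      refine (numTriv_iff (W := W) h2).2 ?_
      rw [cl_divPow, hp]
      exact Submodule.zero_mem _
  triv := by
    rintro l hl _ ⟨⟨z, hz, rfl⟩, hN⟩
    rw [bil_apply, ← cl_divPow]
    exact hN.2 _ (Submodule.subset_span (Set.mem_iUnion.2 ⟨_, _,
      divPow_mem (ops := ops) hD _ hz, rfl⟩))
  Nzero l := ⟨⟨0, SmVar.IsCyc.zero _ _, map_zero _⟩, Submodule.zero_mem _⟩
  Nadd := by
    rintro l _ ⟨⟨z, hz, rfl⟩, hN⟩ _ ⟨⟨z', hz', rfl⟩, hN'⟩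
    exact ⟨⟨z + z', hz.add hz', map_add _ _ _⟩, Submodule.add_mem _ hN hN'⟩
  NL := by
    rintro l _ ⟨⟨z, hz, rfl⟩, hN⟩
    refine ⟨⟨ops.mul D z, ?_, by rw [W.cl_mul]; rfl⟩, ?_⟩
    · rw [add_comm]
      exact ops.mul_mem hD hz
    · rw [LinearMap.mulLeft_apply]
      exact Sys.Num.mul' (Submodule.subset_span (Set.mem_iUnion.2 ⟨1, D, hD, rfl⟩)) hN
  self a b := by
    rw [bil_apply, bil_apply, LinearMap.mulLeft_apply, LinearMap.mulLeft_apply,
      W.even_comm (p := 1) (W.cl_mem hD) a, mul_assoc]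

/-- **Positivity of the form on the algebraic classes modulo numerical equivalence.** -/
theorem bf_posN {f : Module.End W.K (W.H Z)} (F : Fr W Z D f) (hH : NumHodge ops Z D)
    {x : W.H Z} (hx : AS W Z x) (hx0 : x ∉ (algSys W).Num Z) :
    ∃ q : ℚ, 0 < q ∧ Pool.Agent.W552.bf W Z D f x x = q := by
  classical
  have hC := npart F.hD F.lefschetzA hH
  have t := F.sl2
  set L : Module.End W.K (W.H Z) := LinearMap.mulLeft W.K (W.cl Z D) with hL
  have hw1 : wey L f * L = -(f * wey L f) := wey_e t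
  have hw3 : ∀ (m : ℕ) (v : W.H Z), f v = 0 → wt (W.isInternal Z) Z.dim v = -(m : W.K) • v →
      wey L f v = ((m.factorial : W.K)⁻¹) • (L ^ m) v := fun m v hv hm => wey_lowest t hv hm
  have hHw : ∀ i, ∀ a ∈ W.gr Z i, wt (W.isInternal Z) Z.dim a = ((i : W.K) - Z.dim) • a :=
    fun i a ha => Fr.wt_gr ha
  have hlow : ∀ i ≤ Z.dim, ∀ a ∈ W.gr Z i, (L ^ (Z.dim - i + 1)) a = 0 → f a = 0 := by
    intro i hi a ha h0
    refine t.f_eq_zero (M := Z.dim - i) ?_ h0
    rw [hHw i a ha, Nat.cast_sub hi]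
    congr 1
    ring
  have key : ∀ j, ∃ q : ℚ, 0 ≤ q ∧ (proj (W.isInternal Z) (2 * j) x ∉ (algSys W).Num Z → 0 < q) ∧
      Pool.Agent.W552.bf W Z D f (proj (W.isInternal Z) (2 * j) x)
        (proj (W.isInternal Z) (2 * j) x) = q := by
    intro j
    have h1 := hx.proj j
    obtain ⟨s, hs, hs', hs''⟩ := hC.weyl_pos t hw1 hw3 hlow hHw (mulLeft_isHom F.hD) W_hbd h1
    refine ⟨(-1) ^ j * s, hs', fun h => hs'' fun h2 => h h2.2, ?_⟩
    rw [bf_apply, st_apply (alg_gr h1), mul_smul_comm, map_smul, ← bil_apply]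
    rw [hL] at hs
    rw [hs, sg_two_mul, smul_eq_mul]
    push_cast
    rfl
  choose q hq0 hq1 hq2 using key
  refine ⟨∑ j ∈ Finset.range (Z.dim + 1), q j, ?_, ?_⟩
  · have hex : ∃ j ∈ Finset.range (Z.dim + 1),
        proj (W.isInternal Z) (2 * j) x ∉ (algSys W).Num Z := by
      by_contra h0
      push Not at h0
      apply hx0
      rw [Fr.AS_sum hx]
      exact Submodule.sum_mem _ h0
    obtain ⟨j, hj, hj0⟩ := hex
    exact Finset.sum_pos' (fun b hb => hq0 b) ⟨j, hj, hq1 j hj0⟩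
  · have h1 : Pool.Agent.W552.bf W Z D f x x = Pool.Agent.W552.bf W Z D f
        (∑ j ∈ Finset.range (Z.dim + 1), proj (W.isInternal Z) (2 * j) x)
        (∑ j ∈ Finset.range (Z.dim + 1), proj (W.isInternal Z) (2 * j) x) := by
      rw [← Fr.AS_sum hx]
    rw [h1, map_sum (Pool.Agent.W552.bf W Z D f), LinearMap.sum_apply, Rat.cast_sum]
    apply Finset.sum_congr rfl
    intro j hj
    rw [map_sum, Finset.sum_eq_single j, hq2]
    · intro i _ hi
      exact F.bf_deg (proj_mem _ _ _) (proj_mem _ _ _) (by omega)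
    · intro h0; exact absurd hj h0

lemma deg_eq {i j : ℕ} {y z : Z.Cycles} (hy : Z.IsCyc i y) (hz : Z.IsCyc j z)
    (hij : i + j = Z.dim) : W.tr Z (W.cl Z y * W.cl Z z) = (Z.V.degCycle (ops.mul y z) : W.K) :=
  Pool.Agent.W534.tr_mul_cl' hy hz hij

/-- **Numerically primitive cycles are numerically equivalent to primitive cycles.** -/
theorem exists_prim (hD : Z.IsCyc 1 D) (hA : LefschetzA W Z D) {j : ℕ} (hj : 2 * j ≤ Z.dim)
    {z : Z.Cycles} (hz : Z.IsCyc j z) (hp : NumPrim ops Z D j z) :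
    ∃ z', Z.IsCyc j z' ∧ W.cl Z (divPow ops D (Z.dim - 2 * j + 1) z') = 0 ∧
      W.cl Z z - W.cl Z z' ∈ (algSys W).Num Z := by
  have hself : ∀ (m : ℕ) (a b : W.H Z),
      W.tr Z ((LinearMap.mulLeft W.K (W.cl Z D) ^ m) a * b) =
      W.tr Z (a * (LinearMap.mulLeft W.K (W.cl Z D) ^ m) b) := by
    intro m
    induction m with
    | zero => intro a b; simp
    | succ m ih =>
      intro a b
      have e1 : (LinearMap.mulLeft W.K (W.cl Z D) ^ (m + 1)) b =
          W.cl Z D * (LinearMap.mulLeft W.K (W.cl Z D) ^ m) b := by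
        rw [pow_succ', Module.End.mul_apply, LinearMap.mulLeft_apply]
      rw [e1, pow_succ, Module.End.mul_apply, ih, LinearMap.mulLeft_apply,
        W.even_comm (p := 1) (W.cl_mem hD) a, mul_assoc]
  rcases j with _ | i
  · refine ⟨z, hz, ?_, by rw [sub_self]; exact Submodule.zero_mem _⟩
    have h1 := W.cl_mem (divPow_mem (ops := ops) hD (Z.dim - 2 * 0 + 1) hz)
    rw [W.gr_eq_bot Z _ (by omega)] at h1
    exact (Submodule.mem_bot _).1 h1
  · have hmem := divPow_mem (ops := ops) hD (Z.dim - 2 * (i + 1) + 1) hz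
    rw [show i + 1 + (Z.dim - 2 * (i + 1) + 1) = Z.dim - i by omega] at hmem
    obtain ⟨y, hy, hyz⟩ := hA i (by omega) _ hmem
    have hDy : Z.IsCyc (i + 1) (ops.mul D y) := by
      rw [add_comm]
      exact ops.mul_mem hD hy
    have hcDy : W.cl Z (ops.mul D y) = LinearMap.mulLeft W.K (W.cl Z D) (W.cl Z y) := by
      rw [W.cl_mul, LinearMap.mulLeft_apply]
    refine ⟨z + (-1 : ℚ) • ops.mul D y, hz.add (hDy.smul _), ?_, ?_⟩
    · rw [cl_divPow, map_add, W.cl_smul, map_add, map_smul, hcDy, ← Module.End.mul_apply,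
        ← pow_succ, show Z.dim - 2 * (i + 1) + 1 + 1 = Z.dim - 2 * i by omega, ← cl_divPow,
        ← cl_divPow, hyz]
      push_cast
      rw [neg_one_smul, add_neg_cancel]
    · have h1 : W.cl Z z - W.cl Z (z + (-1 : ℚ) • ops.mul D y) = W.cl Z (ops.mul D y) := by
        rw [map_add, W.cl_smul]
        push_cast
        rw [neg_one_smul]
        abel
      rw [h1]
      refine (numTriv_iff hDy).1 fun l w hl hw => ?_
      -- `deg (D y w) = 0`
      have hDw : Z.IsCyc (Z.dim - i) (ops.mul D w) := by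
        have := ops.mul_mem hD hw
        rwa [show 1 + l = Z.dim - i by omega] at this
      obtain ⟨x, hx, hxw⟩ := hA i (by omega) _ hDw
      have h2 : W.tr Z (W.cl Z (ops.mul D y) * W.cl Z w) = 0 := by
        have e1 : W.tr Z (W.cl Z (ops.mul D y) * W.cl Z w) =
            W.tr Z (W.cl Z y * W.cl Z (ops.mul D w)) := by
          have := hself 1 (W.cl Z y) (W.cl Z w)
          rw [pow_one, LinearMap.mulLeft_apply, LinearMap.mulLeft_apply] at this
          rw [W.cl_mul, W.cl_mul]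
          exact this
        rw [e1, ← hxw, cl_divPow, ← hself, ← cl_divPow, hyz]
        have h3 := hp i x (by omega) hx
        rw [deg_eq hmem hx (by omega), h3]
        simp
      rw [deg_eq hDy hw (by omega)] at h2
      exact_mod_cast h2

end Pool.Agent.Q55.Nr
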