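import Pool.Agent.Q55.Nr.NGeo
import Pool.Agent.Q55.Nr.Fam3
import Pool.Agent.Q55.Nr.Abs
import Pool.Agent.Q55.Nr.BaseB
import Pool.Agent.Q55.Ke.Main

/-!
# The numerical Hodge standard conjecture for the powers of a variety
-/

open CategoryTheory AlgebraicGeometry

set_option linter.unusedSectionVars false

universe u v

namespace Pool.Agent.Q55.Nr

open Module Matrix
open Pool.Agent.H914 Pool.Agent.H914.VarClass Pool.Agent.H914.VarClass.Obj
  Pool.Agent.H914.WeilCohomology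
open Pool.Agent.Y133.Half Pool.Agent.Q60.ED Pool.Agent.Q60.TD Pool.Agent.H281R3.HT
  Pool.Agent.H447 Pool.Agent.Q55 Pool.Agent.Q55.Hs Pool.Agent.Q60.NP Pool.Agent.Q55.Ke
open Pool.Agent.W552 (AS AOp RatSub Fr Sy st)
open Pool.Agent.Q60.HD (wd wd_zero wd_succ wd_map wd_prj wd_append wd_PH wb_PH sum_append' wb_xp)

/-- The property of a field of coefficients which is used in the main theorem. -/
def NPack (K : Type) [Field K] : Prop :=
  ∀ (b : ℕ) (B : Matrix (Fin b) (Fin b) K) (a : Fin b → ℕ), IsUnit B → Bᵀ = B * sgm K a →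
    sgm K a * B = B * sgm K a → ∃ P : Matrix (Fin b) (Fin b) K, IsUnit P ∧
      sgm K a * P = P * sgm K a ∧ ∀ (B' : Matrix (Fin b) (Fin b) K), B' = Pᵀ * B * P →
      ∀ R : RS B', ∃ Φ : NC R.span, ∀ L,
        (∀ n ≤ L, ∀ r, R.R n r → r ∉ R.span.rad n → ∃ q : ℚ, 0 < q ∧
          Pool.Agent.Q60.ED.bf (TP B' n) r r = q) →
        ∀ n r, R.R n r →
          (∀ κ ∈ Φ.stab L, tpow (κ : Matrix (Fin b) (Fin b) K) n (Φ.lam r) = Φ.lam r) →
          r ∉ R.span.rad n → ∀ q : ℚ, Pool.Agent.Q60.ED.bf (TP B' n) r r = q → 0 < q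

/-- The complex numbers have the property. -/
theorem npack_C : NPack ℂ := by
  intro b B a hB hBT hεB
  obtain ⟨P, hP, hPs, hPu⟩ := exists_unitary hB (sgm_sq ℂ a) (by
      ext i j
      rw [sgm, Pool.Agent.W552.cj, Matrix.map_apply]
      by_cases hij : i = j
      · subst hij
        rw [diagonal_apply_eq]
        simp
      · rw [diagonal_apply_ne _ hij]
        simp) hBT hεB
  refine ⟨P, hP, hPs, fun B' hB' R => ?_⟩
  rw [← hB'] at hPu
  obtain ⟨Φ⟩ := exists_nc hPu R.span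
  refine ⟨Φ, fun L hpos n r hr hfix hr0 q hq => ?_⟩
  have h6 := num_pos hPu R Φ hpos hr hfix hr0
  have h7 : ((q : ℂ)).re = (q : ℝ) := by
    have h8 : (q : ℂ) = ((q : ℝ) : ℂ) := by push_cast; rfl
    rw [h8, Complex.ofReal_re]
  rw [hq, h7] at h6
  exact_mod_cast h6

/-- Positivity in lower degrees. -/
lemma pos_lowN {K : Type} [Field K] [CharZero K] {ι : Type} [Fintype ι] [DecidableEq ι]
    {B : Matrix ι ι K} (R : RS B)
    {o : (Fin 1 → ι) → K} (ho : R.R 1 o) {p : ℚ} (hp : 0 < p)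
    (hop : Pool.Agent.Q60.ED.bf (TP B 1) o o = p) {L : ℕ}
    (hpos : ∀ r, R.R L r → r ∉ R.span.rad L →
      ∃ q : ℚ, 0 < q ∧ Pool.Agent.Q60.ED.bf (TP B L) r r = q) :
    ∀ n ≤ L, ∀ r, R.R n r → r ∉ R.span.rad n →
      ∃ q : ℚ, 0 < q ∧ Pool.Agent.Q60.ED.bf (TP B n) r r = q := by
  have hp0 : (p : K) ≠ 0 := by exact_mod_cast hp.ne'
  have step : ∀ n, (∀ r, R.R (n + 1) r → r ∉ R.span.rad (n + 1) →
      ∃ q : ℚ, 0 < q ∧ Pool.Agent.Q60.ED.bf (TP B (n + 1)) r r = q) →
      ∀ r, R.R n r → r ∉ R.span.rad n →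
      ∃ q : ℚ, 0 < q ∧ Pool.Agent.Q60.ED.bf (TP B n) r r = q := by
    intro n h r hr hr0
    have h1 : tmul r o ∉ R.span.rad (n + 1) := by
      intro h0
      apply hr0
      refine ⟨Submodule.subset_span hr, fun w hw => ?_⟩
      have h2 := h0.2 (tmul w o) (R.span.mul hw (Submodule.subset_span ho))
      rw [bf_tmul_tmul, hop] at h2
      exact (mul_eq_zero.1 h2).resolve_right hp0
    obtain ⟨q, hq, hq'⟩ := h _ (R.mul hr ho) h1
    rw [bf_tmul_tmul, hop] at hq'
    refine ⟨q / p, div_pos hq hp, ?_⟩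
    rw [Rat.cast_div, eq_div_iff hp0, hq']
  have key : ∀ j, ∀ n, n + j = L → ∀ r, R.R n r → r ∉ R.span.rad n →
      ∃ q : ℚ, 0 < q ∧ Pool.Agent.Q60.ED.bf (TP B n) r r = q := by
    intro j
    induction j with
    | zero =>
      intro n hn
      obtain rfl : n = L := by omega
      exact hpos
    | succ j ih =>
      intro n hn
      exact step n (ih (n + 1) (by omega))
  intro n hn
  exact key (L - n) n (by omega)

section General

variable {k : Type u} [Field k] {𝒱 : VarClass k} {ops : CycleOps 𝒱}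
  {W : WeilCohomology.{u, 0} ops} {X : 𝒱.Obj} {D : X.Cycles}

lemma st_algSpan {Z : 𝒱.Obj} {D : Z.Cycles} {g : Module.End W.K (W.H Z)} (F : Fr W Z D g)
    {c : W.H Z} (hc : c ∈ algSpan W Z) : st W Z D g c ∈ algSpan W Z := by
  induction hc using Submodule.span_induction with
  | mem x hx =>
    obtain ⟨j, hj⟩ := Set.mem_iUnion.1 hx
    exact AS.mem_algSpan (F.st_AS (AS.of hj))
  | zero => rw [map_zero]; exact Submodule.zero_mem _
  | add x y _ _ hx hy => rw [map_add]; exact Submodule.add_mem _ hx hy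
  | smul c x _ hx => rw [map_smul]; exact Submodule.smul_mem _ _ hx

/-- Numerical triviality in coordinates. -/
lemma rad_iff {ι : Type} [Fintype ι] [DecidableEq ι] {e : Basis ι W.K (W.H X)}
    {B : Matrix ι ι W.K} {n : ℕ} {g : Module.End W.K (W.H (pw X n))} (G : Pc e D B n g)
    {C : CSys B} (hC : C.S (n + 1) = crdK e (algSys W) (n + 1)) {c : W.H (pw X n)} :
    tn e n c ∈ C.rad (n + 1) ↔ c ∈ (algSys W).Num (pw X n) := by
  constructor
  · rintro ⟨h1, h2⟩
    rw [hC] at h1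
    have h3 := (mem_crdK_succ (e := e)).1 h1
    rw [clsK_tn] at h3
    refine ⟨h3, fun d hd => ?_⟩
    have h4 := h2 (tn e n (st W (pw X n) (pwDiv ops D n) g d)) (by
      rw [hC, mem_crdK_succ, clsK_tn]
      exact st_algSpan G.pz.fr hd)
    rw [← G.bf, clsK_tn, clsK_tn, Pool.Agent.W552.bf_apply, G.pz.st_st] at h4
    exact h4
  · intro h
    refine ⟨?_, fun w hw => ?_⟩
    · rw [hC, mem_crdK_succ, clsK_tn]
      exact h.1
    · change w ∈ C.S (n + 1) at hw
      rw [hC, mem_crdK_succ] at hw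
      rw [← G.bf, clsK_tn, Pool.Agent.W552.bf_apply]
      exact h.2 _ (st_algSpan G.pz.fr hw)

/-- **The main theorem.** -/
theorem nmain_gen (hK : NPack W.K) (hD : X.IsCyc 1 D)
    (hdeg : 0 < X.V.degCycle (divPow ops D X.dim X.V.fundCycle))
    (hHL : HardLefschetz W X D) (hB : LefschetzB W X D) :
    ∃ N₀ : ℕ, ∀ N, 2 ≤ N → NumHodge ops (pw X N) (pwDiv ops D N) →
      (∀ n, NumHodgeOn ops (pw X n) (pwDiv ops D n) (genNum ops X N n)) ∧
      (N₀ ≤ N → ∀ n, NumHodge ops (pw X n) (pwDiv ops D n)) := by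
  classical
  set b := finrank W.K (W.H X) with hb
  have hpa := Pool.Agent.W552.proj_aop hD hHL hB
  have hpar := Pool.Agent.W552.par_aop hpa
  have hpar' := par_alg hD hHL hB
  obtain ⟨f, G⟩ := exists_pz hD hHL hB
  have h1 := posOne G.fr hdeg
  have hst := Pool.Agent.W552.st_aop G.fr hpa
  -- the basis
  obtain ⟨e₀, a, he₀⟩ := exists_grbasis W X
  have he₀' : ∀ j, e₀ j ∈ PH W X (a j) := fun j => PH.of (he₀ j)
  obtain ⟨P, hP, hPs, hPk⟩ := hK b (gramB e₀ D f) a (RT.inv_mem he₀' G hst).2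
    (gramB_transpose he₀' G.sy) (sgm_gramB he₀' G.sy)
  obtain ⟨e, he, hgr⟩ := exists_cob (D := D) he₀' hP hPs
  have hBd : (gramB e D f).det ≠ 0 :=
    isUnit_iff_ne_zero.1 ((Matrix.isUnit_iff_isUnit_det _).1 (RT.inv_mem he G hst).2)
  set R := rsys he G h1 hpar hst with hR
  have hCS : ∀ n, R.span.S n = crdK e (algSys W) n := fun n => (crdK_span e n).symm
  obtain ⟨Φ, hΦ⟩ := hPk _ (hgr f) R
  obtain ⟨N₀, hN₀⟩ := Φ.exists_level
  refine ⟨N₀, fun N hN hH => ?_⟩
  have hposL : ∀ r, R.R (N + 1) r → r ∉ R.span.rad (N + 1) → ∃ q : ℚ, 0 < q ∧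
      Pool.Agent.Q60.ED.bf (TP (gramB e D f) (N + 1)) r r = q := by
    intro r hr hr0
    obtain ⟨g, G'⟩ := exists_pc (e := e) G h1 N
    have hr' : AS W (pw X N) (clsK e (prj X N) r) := RT_succ.1 hr
    obtain ⟨q, hq, hq'⟩ := bf_posN G'.pz.fr hH hr' fun h0 => hr0 (by
      have h2 := (rad_iff G' (hCS (N + 1))).2 h0
      rwa [tn_cls] at h2)
    exact ⟨q, hq, (G'.bf r r).symm.trans hq'⟩
  have hpos : ∀ n ≤ N + 1, ∀ r, R.R n r → r ∉ R.span.rad n → ∃ q : ℚ, 0 < q ∧
      Pool.Agent.Q60.ED.bf (TP (gramB e D f) n) r r = q := by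
    obtain ⟨g, G'⟩ := exists_pc (e := e) G h1 0
    obtain ⟨p, hp, hp'⟩ := G'.one
    have ho : RT e 1 (tn e 0 1) := by
      rw [RT_succ, clsK_tn]
      exact AS.one
    refine pos_lowN R (o := tn e 0 1) ho hp ?_ hposL
    have h2 := G'.bf (tn e 0 1) (tn e 0 1)
    rw [clsK_tn] at h2
    exact h2.symm.trans hp'
  -- positivity for a single class
  have hcore : ∀ n (c : W.H (pw X n)), AS W (pw X n) c → c ∉ (algSys W).Num (pw X n) →
      (∀ κ ∈ Φ.stab (N + 1), tpow (κ : Matrix (Fin b) (Fin b) W.K) (n + 1)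
        (Φ.lam (tn e n c)) = Φ.lam (tn e n c)) →
      ∀ g, Pc e D (gramB e D f) n g →
      ∃ q : ℚ, 0 < q ∧ Pool.Agent.W552.bf W (pw X n) (pwDiv ops D n) g c c = q := by
    intro n c hc hc0 hfix g G'
    have hrt : RT e (n + 1) (tn e n c) := by
      rw [RT_succ, clsK_tn]
      exact hc
    obtain ⟨q, hq⟩ := R.bf_rat (n := n + 1) hrt hrt
    refine ⟨q, hΦ (N + 1) hpos (n + 1) (tn e n c) hrt hfix
      (fun h0 => hc0 ((rad_iff G' (hCS (n + 1))).1 h0)) q hq, ?_⟩
    have h2 := G'.bf (tn e n c) (tn e n c)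
    rw [clsK_tn] at h2
    exact h2.trans hq
  -- positivity for cycles
  have hcyc : ∀ n j, 2 * j ≤ (pw X n).dim → ∀ z, (pw X n).IsCyc j z →
      NumPrim ops (pw X n) (pwDiv ops D n) j z → ¬ NumTriv ops (pw X n) j z →
      (∀ c : W.H (pw X n), c ∈ algSpan W (pw X n) →
        W.cl (pw X n) z - c ∈ (algSys W).Num (pw X n) →
        ∀ κ ∈ Φ.stab (N + 1), tpow (κ : Matrix (Fin b) (Fin b) W.K) (n + 1)
        (Φ.lam (tn e n c)) = Φ.lam (tn e n c)) →
      0 < (-1 : ℚ) ^ j * (pw X n).V.degCycle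
        (ops.mul z (divPow ops (pwDiv ops D n) ((pw X n).dim - 2 * j) z)) := by
    intro n j hj z hz hp hz0 hfix
    obtain ⟨g, G'⟩ := exists_pc (e := e) G h1 n
    have hDn := G'.pz.fr.hD
    obtain ⟨z', hz', hprim, hzz⟩ := exists_prim hDn G'.pz.fr.lefschetzA hj hz hp
    have hz'0 : W.cl (pw X n) z' ∉ (algSys W).Num (pw X n) := by
      intro h0
      apply hz0
      refine (numTriv_iff (W := W) hz).2 ?_
      have := Submodule.add_mem _ hzz h0
      rwa [sub_add_cancel] at this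
    obtain ⟨q, hq, hq'⟩ := hcore n _ (AS.of ⟨z', hz', rfl⟩) hz'0
      (hfix _ (Submodule.subset_span (Set.mem_iUnion.2 ⟨j, z', hz', rfl⟩)) hzz) g G'
    rw [G'.pz.fr.form_prim hj hz' hprim] at hq'
    have h3 : (-1 : ℚ) ^ j * ((((pw X n).dim - 2 * j).factorial : ℚ)⁻¹ *
        (pw X n).V.degCycle (ops.mul z' (divPow ops (pwDiv ops D n)
          ((pw X n).dim - 2 * j) z'))) = q := by exact_mod_cast hq'
    -- the intersection numbers of `z` and `z'` agree
    have hmemz := divPow_mem (ops := ops) hDn ((pw X n).dim - 2 * j) hz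
    have hmemz' := divPow_mem (ops := ops) hDn ((pw X n).dim - 2 * j) hz'
    have h4 : (pw X n).V.degCycle (ops.mul z (divPow ops (pwDiv ops D n)
        ((pw X n).dim - 2 * j) z)) = (pw X n).V.degCycle (ops.mul z' (divPow ops (pwDiv ops D n)
        ((pw X n).dim - 2 * j) z')) := by
      have h5 : (((pw X n).V.degCycle (ops.mul z (divPow ops (pwDiv ops D n)
          ((pw X n).dim - 2 * j) z)) : ℚ) : W.K) = (((pw X n).V.degCycle (ops.mul z'
          (divPow ops (pwDiv ops D n) ((pw X n).dim - 2 * j) z')) : ℚ) : W.K) := by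
        rw [← deg_eq hz hmemz (by omega), ← deg_eq hz' hmemz' (by omega)]
        have e1 : W.tr (pw X n) ((W.cl (pw X n) z - W.cl (pw X n) z') *
            W.cl (pw X n) (divPow ops (pwDiv ops D n) ((pw X n).dim - 2 * j) z)) = 0 :=
          hzz.2 _ (Submodule.subset_span (Set.mem_iUnion.2 ⟨_, _, hmemz, rfl⟩))
        have e2 : W.tr (pw X n) ((W.cl (pw X n) z - W.cl (pw X n) z') *
            W.cl (pw X n) (divPow ops (pwDiv ops D n) ((pw X n).dim - 2 * j) z')) = 0 :=
          hzz.2 _ (Submodule.subset_span (Set.mem_iUnion.2 ⟨_, _, hmemz', rfl⟩))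
        rw [sub_mul, map_sub, sub_eq_zero] at e1 e2
        rw [e1, ← e2]
        have e3 := G'.pz.fr.hD
        -- symmetry
        rw [cl_divPow, cl_divPow]
        have hself : ∀ (m : ℕ) (x y : W.H (pw X n)),
            W.tr (pw X n) ((LinearMap.mulLeft W.K (W.cl (pw X n) (pwDiv ops D n)) ^ m) x * y) =
            W.tr (pw X n) (x *
              (LinearMap.mulLeft W.K (W.cl (pw X n) (pwDiv ops D n)) ^ m) y) := by
          intro m
          induction m with
          | zero => intro x y; simp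
          | succ m ih =>
            intro x y
            have e1 : (LinearMap.mulLeft W.K (W.cl (pw X n) (pwDiv ops D n)) ^ (m + 1)) y =
                W.cl (pw X n) (pwDiv ops D n) *
                  (LinearMap.mulLeft W.K (W.cl (pw X n) (pwDiv ops D n)) ^ m) y := by
              rw [pow_succ', Module.End.mul_apply, LinearMap.mulLeft_apply]
            rw [e1, pow_succ, Module.End.mul_apply, ih, LinearMap.mulLeft_apply,
              W.even_comm (p := 1) (W.cl_mem hDn) x, mul_assoc]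
        rw [← hself, W.even_comm (p := j) (W.cl_mem hz)]
      exact_mod_cast h5
    rw [h4]
    have h6 : (0 : ℚ) < (((pw X n).dim - 2 * j).factorial : ℚ)⁻¹ := by positivity
    have h7 : (0 : ℚ) < (((pw X n).dim - 2 * j).factorial : ℚ)⁻¹ * ((-1 : ℚ) ^ j *
        (pw X n).V.degCycle (ops.mul z' (divPow ops (pwDiv ops D n)
          ((pw X n).dim - 2 * j) z'))) := by
      rw [← h3] at hq
      linarith [hq]
    exact (mul_pos_iff_of_pos_left h6).1 h7
  refine ⟨fun n j hj z hz hmem hp hz0 => hcyc n j hj z hz hp hz0 fun c hc hzc => ?_,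
    fun hNN n j hj z hz _ hp hz0 => hcyc n j hj z hz hp hz0 fun c hc _ κ hκ => ?_⟩
  · -- the closed family
    have hE : ∀ m ≤ N + 1, ∀ s ∈ crdK e (algSys W) m, ∀ I,
        cf (gramB e D f) s I ∈ Φ.eqA (Φ.stab (N + 1)) := by
      intro m hm s hs
      rw [← hCS] at hs
      exact (NC.mem_eqA hs).2 fun κ hκ => hκ m hm s hs
    have hfam := Vfam_closed (e := e) (E := Φ.eqA (Φ.stab (N + 1))) (S := algSys W) (N := N) hBd
      (gramB_transpose he G.sy) he hpar' (fun m hm => hE m (by omega)) fun j z hz => by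
        intro I
        refine hE (N + 1) le_rfl _ ?_ I
        rw [mem_crdK_succ, clsK_tn]
        exact Submodule.subset_span (Set.mem_iUnion.2 ⟨j, z, hz, rfl⟩)
    have hnum : ∀ m (d : W.H (pw X m)), d ∈ (algSys W).Num (pw X m) →
        d ∈ Vfam e (Φ.eqA (Φ.stab (N + 1))) m := by
      intro m d hd I
      obtain ⟨g', G''⟩ := exists_pc (e := e) G h1 m
      exact NC.rad_eqA ((rad_iff G'' (hCS (m + 1))).2 hd) I
    have h2 : z ∈ {z : (pw X n).Cycles | W.cl (pw X n) z ∈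
        Vfam e (Φ.eqA (Φ.stab (N + 1))) n} := by
      refine hmem (fun n => {z : (pw X n).Cycles | W.cl (pw X n) z ∈
        Vfam e (Φ.eqA (Φ.stab (N + 1))) n}) ⟨hfam.cycle, fun m j z hz ht =>
          hnum m _ ((numTriv_iff hz).1 ht), fun m y hy z hz => ?_, fun m q z hz => ?_,
          fun m y hy z hz => ?_, fun f hf z hz => ?_, fun f hf z hz => ?_⟩
      · change W.cl (pw X m) (y + z) ∈ Vfam e (Φ.eqA (Φ.stab (N + 1))) m
        rw [map_add]
        exact Submodule.add_mem _ hy hz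
      · change W.cl (pw X m) (q • z) ∈ Vfam e (Φ.eqA (Φ.stab (N + 1))) m
        rw [W.cl_smul]
        exact Submodule.smul_mem _ _ hz
      · change W.cl (pw X m) (ops.mul y z) ∈ Vfam e (Φ.eqA (Φ.stab (N + 1))) m
        rw [W.cl_mul]
        exact hfam.mul m _ hy _ hz
      · change W.cl _ (ops.pull f z) ∈ Vfam e (Φ.eqA (Φ.stab (N + 1))) _
        rw [W.cl_pull]
        exact hfam.pull f hf _ hz
      · change W.cl _ (ops.push f z) ∈ Vfam e (Φ.eqA (Φ.stab (N + 1))) _
        rw [W.cl_push]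
        exact hfam.push f hf _ hz
    have h3 : c ∈ Vfam e (Φ.eqA (Φ.stab (N + 1))) n := by
      have h4 := Submodule.sub_mem _ h2 (hnum n _ hzc)
      rwa [sub_sub_cancel] at h4
    refine (NC.mem_eqA ?_).1 h3
    rw [hCS, mem_crdK_succ, clsK_tn]
    exact hc
  · refine hN₀ κ (fun m hm t ht => hκ m (by omega) t ht) _ _ ?_
    rw [hCS, mem_crdK_succ, clsK_tn]
    exact hc

end General

section Final

variable {k : Type u} [Field k] {𝒱 : VarClass k} {ops : CycleOps 𝒱}
  {W : WeilCohomology.{u, 0} ops} {X : 𝒱.Obj} {D : X.Cycles}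

/-- **The numerical Hodge standard conjecture for the powers of a variety.** -/
theorem nmain (hσ : Nonempty (W.K →+* ℂ)) (hD : X.IsCyc 1 D)
    (hdeg : 0 < X.V.degCycle (divPow ops D X.dim X.V.fundCycle))
    (hHL : HardLefschetz W X D) (hB : LefschetzB W X D) :
    ∃ N₀ : ℕ, ∀ N, 2 ≤ N → NumHodge ops (pw X N) (pwDiv ops D N) →
      (∀ n, NumHodgeOn ops (pw X n) (pwDiv ops D n) (genNum ops X N n)) ∧
      (N₀ ≤ N → ∀ n, NumHodge ops (pw X n) (pwDiv ops D n)) := by
  obtain ⟨σ⟩ := hσ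
  let _ : Algebra W.K ℂ := σ.toAlgebra
  exact nmain_gen (W := baseW W ℂ) npack_C hD hdeg (base_hardLefschetz hD hHL)
    (base_lefschetzB hB)

end Final

end Pool.Agent.Q55.Nr
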