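import Pool.Agent.Q55.Nr.Br
import Pool.Agent.Q55.Nr.Char

/-!
# A character of the algebra of the coordinates of the translates of the tensors of a system
-/

set_option linter.unusedSectionVars false

namespace Pool.Agent.Q55.Nr

open MvPolynomial Module Matrix Pool.Agent.Q60.ED Pool.Agent.Q60.NP Pool.Agent.Q55.Ke

variable {K : Type} [Field K] {ι : Type} [Fintype ι] [DecidableEq ι]

/-- The values of the polynomials on the group. -/
noncomputable def evG (B : Matrix ι ι K) : MvPolynomial (ι × ι) K →ₐ[K] (Aut B → K) :=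
  AlgHom.pi fun h : Aut B => evM (h : Matrix ι ι K)

lemma evG_apply (B : Matrix ι ι K) (f : MvPolynomial (ι × ι) K) (h : Aut B) :
    evG B f h = evM (h : Matrix ι ι K) f := rfl

/-- The coordinates of the translates of a tensor. -/
noncomputable def cf (B : Matrix ι ι K) {n : ℕ} (t : (Fin n → ι) → K) (I : Fin n → ι) :
    Aut B → K := fun h => tpow (h : Matrix ι ι K) n t I

lemma cf_apply (B : Matrix ι ι K) {n : ℕ} (t : (Fin n → ι) → K) (I : Fin n → ι) (h : Aut B) :
    cf B t I h = tpow (h : Matrix ι ι K) n t I := rfl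

lemma evG_xt (B : Matrix ι ι K) {n : ℕ} (t : (Fin n → ι) → K) (I : Fin n → ι) :
    evG B (xt t I) = cf B t I := by
  funext h
  rw [evG_apply, cf_apply, evM_xt]

section Cf

variable {B : Matrix ι ι K} {m n : ℕ}

lemma cf_add (s t : (Fin n → ι) → K) (I : Fin n → ι) :
    cf B (s + t) I = cf B s I + cf B t I := by
  funext h
  rw [Pi.add_apply, cf_apply, cf_apply, cf_apply, map_add, Pi.add_apply]

lemma cf_smul (c : K) (t : (Fin n → ι) → K) (I : Fin n → ι) :
    cf B (c • t) I = c • cf B t I := by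
  funext h
  rw [Pi.smul_apply, cf_apply, cf_apply, map_smul, Pi.smul_apply]

lemma cf_zero (I : Fin n → ι) : cf B (0 : (Fin n → ι) → K) I = 0 := by
  funext h
  rw [Pi.zero_apply, cf_apply, map_zero, Pi.zero_apply]

lemma cf_tmul (s : (Fin m → ι) → K) (t : (Fin n → ι) → K) (I : Fin (m + n) → ι) :
    cf B (tmul s t) I = cf B s (fun k => I (Fin.castAdd n k)) *
      cf B t (fun k => I (Fin.natAdd m k)) := by
  funext h
  rw [Pi.mul_apply, cf_apply, cf_apply, cf_apply, tpow_tmul]
  rfl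

lemma cf_perm (σ : Equiv.Perm (Fin n)) (t : (Fin n → ι) → K) (I : Fin n → ι) :
    cf B (fun J => t (J ∘ σ)) I = cf B t (I ∘ σ) := by
  funext h
  rw [cf_apply, cf_apply, tpow_perm]

lemma cf_ctr (hB : B.det ≠ 0) (s : (Fin m → ι) → K) (t : (Fin (m + n) → ι) → K)
    (J : Fin n → ι) :
    cf B (ctr B s t) J = ∑ I, ∑ I', TP B m I I' • (cf B s I * cf B t (Fin.append I' J)) := by
  funext h
  rw [cf_apply, tpow_ctr hB h.2, ctr, Finset.sum_apply]
  refine Finset.sum_congr rfl fun I _ => ?_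
  rw [Finset.sum_apply]
  refine Finset.sum_congr rfl fun I' _ => ?_
  rw [Pi.smul_apply, Pi.mul_apply, cf_apply, cf_apply, smul_eq_mul]
  ring

lemma cf_deg0 (t : (Fin 0 → ι) → K) (I : Fin 0 → ι) :
    cf B t I = algebraMap K (Aut B → K) (t I) := by
  funext h
  rw [cf_apply, tpow_zero]
  rfl

lemma cf_om (hB : B.det ≠ 0) (I : Fin 2 → ι) :
    cf B (om B) I = algebraMap K (Aut B → K) (om B I) := by
  funext h
  rw [cf_apply, (Aut_om hB).1 h.2]
  rfl

/-- A tensor fixed by all matrices of the group. -/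
lemma cf_one_apply (t : (Fin n → ι) → K) (I : Fin n → ι) :
    cf B t I ⟨1, one_mem_Aut⟩ = t I := by
  rw [cf_apply]
  exact congrFun (tpow_one n t) I

end Cf

variable {B : Matrix ι ι K} (C : CSys B)

/-- The algebra of the coordinates. -/
noncomputable def FA : Subalgebra K (Aut B → K) :=
  Algebra.adjoin K {f | ∃ n, ∃ s ∈ C.S n, ∃ I, f = cf B s I}

variable {C}

lemma cf_mem {n : ℕ} {s : (Fin n → ι) → K} (hs : s ∈ C.S n) (I : Fin n → ι) :
    cf B s I ∈ FA C := Algebra.subset_adjoin ⟨n, s, hs, I, rfl⟩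

lemma FA_span {f : Aut B → K} (hf : f ∈ FA C) :
    f ∈ Submodule.span K {g | ∃ n, ∃ s ∈ C.S n, ∃ I, g = cf B s I} := by
  rw [FA] at hf
  induction hf using Algebra.adjoin_induction with
  | mem x hx => exact Submodule.subset_span hx
  | algebraMap r =>
    have h1 : (algebraMap K (Aut B → K) r) =
        r • cf B (fun _ => 1 : (Fin 0 → ι) → K) Fin.elim0 := by
      rw [cf_deg0, map_one, Algebra.algebraMap_eq_smul_one]
    rw [h1]
    exact Submodule.smul_mem _ r (Submodule.subset_span ⟨0, _, C.one, _, rfl⟩)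
  | add x y _ _ hx hy => exact Submodule.add_mem _ hx hy
  | mul x y _ _ hx hy =>
    have h1 := Submodule.mul_mem_mul hx hy
    rw [Submodule.span_mul_span] at h1
    refine Submodule.span_mono ?_ h1
    rintro _ ⟨_, ⟨m, s, hs, I, rfl⟩, _, ⟨n, t, ht, J, rfl⟩, rfl⟩
    refine ⟨m + n, tmul s t, C.mul hs ht, Fin.append I J, ?_⟩
    rw [cf_tmul]
    simp only [Fin.append_left, Fin.append_right]

lemma FA_le_range : (FA C).toSubmodule ≤ LinearMap.range (evG B).toLinearMap := by
  intro f hf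
  have h1 := FA_span (C := C) hf
  refine (Submodule.span_le.2 ?_) h1
  rintro _ ⟨n, s, -, I, rfl⟩
  exact ⟨xt s I, evG_xt B s I⟩

lemma rank_FA : Module.rank K (FA C) ≤ Cardinal.aleph0 := by
  have h1 : Module.rank K (MvPolynomial (ι × ι) K) ≤ Cardinal.aleph0 := by
    rw [MvPolynomial.rank_eq]
    exact Cardinal.mk_le_aleph0
  have h2 : Module.rank K (FA C) ≤ Module.rank K (LinearMap.range (evG B).toLinearMap) :=
    Submodule.rank_mono (FA_le_range (C := C))
  exact h2.trans ((rank_range_le _).trans h1)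

/-- The polynomials of the radical. -/
noncomputable def RP (C : CSys B) : Submodule K (MvPolynomial (ι × ι) K) :=
  Submodule.span K {g | ∃ n, ∃ s ∈ C.rad n, ∃ I, g = xt s I}

lemma RP_mul {f g : MvPolynomial (ι × ι) K} (hf : f ∈ RP C) (hg : g ∈ RP C) : f * g ∈ RP C := by
  have h1 := Submodule.mul_mem_mul hf hg
  rw [RP, Submodule.span_mul_span] at h1
  refine Submodule.span_mono ?_ h1
  rintro _ ⟨_, ⟨m, s, hs, I, rfl⟩, _, ⟨n, t, ht, J, rfl⟩, rfl⟩
  exact ⟨m + n, tmul s t, CSys.rad_mul hs.1 ht, Fin.append I J, CSys.xt_mul_xt s t I J⟩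

lemma lam_xt (T : TSys K ι) {n : ℕ} (t : (Fin n → ι) → K) (I : Fin n → ι) :
    T.lam (xt t I) = T.p n t I := by
  rw [xt, map_sum]
  have h3 : ∀ J, T.lam (MvPolynomial.C (t J) * mon I J) = t J * T.p n (Pi.single J 1) I := by
    intro J
    rw [← smul_eq_C_mul, map_smul, T.lam_mon, smul_eq_mul]
  simp only [h3]
  conv_rhs => rw [← TSys.sum_single t, map_sum, Finset.sum_apply]
  refine Finset.sum_congr rfl fun J _ => ?_
  rw [map_smul, Pi.smul_apply, smul_eq_mul]

/-- The radical does not generate the unit ideal. -/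
lemma not_one [IsAlgClosed K] (T : TSys K ι) (hom : om B ∈ T.S 2) (hB : B.det ≠ 0)
    (hp : ∀ n, ∀ t ∈ C.rad n, T.p n t = 0) {F : MvPolynomial (ι × ι) K} (hF : F ∈ RP C) :
    evG B F ≠ 1 := by
  intro h1
  have hlam : ∀ g ∈ RP C, T.lam g = 0 := by
    intro g hg
    induction hg using Submodule.span_induction with
    | mem g hg =>
      obtain ⟨n, t, ht, I, rfl⟩ := hg
      rw [lam_xt, hp n t ht, Pi.zero_apply]
    | zero => exact map_zero _
    | add x y _ _ hx hy => rw [map_add, hx, hy, add_zero]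
    | smul c x _ hx => rw [map_smul, hx, smul_zero]
  have h2 : 1 - F ∈ (IS T.S).radical := by
    rw [← MvPolynomial.vanishingIdeal_zeroLocus_eq_radical (K := K), mem_vanishingIdeal_iff]
    intro x hx
    rw [mem_zeroLocus_iff] at hx
    set h : Matrix ι ι K := Matrix.of fun a b => x (a, b) with hh
    have hfix : Fix T.S h := by
      rw [fix_iff]
      intro f hf
      exact hx f hf
    have hA : h ∈ Aut B := (Aut_om hB).2 (hfix 2 _ hom)
    have h3 := congrFun h1 ⟨h, hA⟩
    rw [evG_apply, Pi.one_apply] at h3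
    change evM h (1 - F) = 0
    rw [map_sub, map_one, h3, sub_self]
  obtain ⟨N, hN⟩ := h2
  have h3 : ∀ N : ℕ, (1 - F) ^ N - 1 ∈ RP C := by
    intro N
    induction N with
    | zero => rw [pow_zero, sub_self]; exact Submodule.zero_mem _
    | succ N ih =>
      have h4 : (1 - F) ^ (N + 1) - 1 = ((1 - F) ^ N - 1) - F * ((1 - F) ^ N - 1) - F := by ring
      rw [h4]
      exact Submodule.sub_mem _ (Submodule.sub_mem _ ih (RP_mul hF ih)) hF
  have h4 := hlam _ (h3 N)
  rw [map_sub, T.lam_IS hN, T.lam_one, zero_sub, neg_eq_zero] at h4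
  exact one_ne_zero h4

/-- **A character of the algebra of the coordinates which vanishes on the coordinates of the
radical.** -/
theorem exists_phi [IsAlgClosed K] (hK : Cardinal.aleph0 < Cardinal.mk K) (T : TSys K ι)
    (hom : om B ∈ T.S 2) (hB : B.det ≠ 0) (hp : ∀ n, ∀ t ∈ C.rad n, T.p n t = 0) :
    ∃ φ : FA C →ₐ[K] K, ∀ n (t : (Fin n → ι) → K) (ht : t ∈ C.rad n) (I : Fin n → ι),
      φ ⟨cf B t I, cf_mem ht.1 I⟩ = 0 := by
  set N : Submodule K (Aut B → K) := (RP C).map (evG B).toLinearMap with hN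
  have hNs : N = Submodule.span K {g | ∃ n, ∃ s ∈ C.rad n, ∃ I, g = cf B s I} := by
    rw [hN, RP, Submodule.map_span]
    congr 1
    ext g
    constructor
    · rintro ⟨_, ⟨n, s, hs, I, rfl⟩, rfl⟩
      exact ⟨n, s, hs, I, evG_xt B s I⟩
    · rintro ⟨n, s, hs, I, rfl⟩
      exact ⟨_, ⟨n, s, hs, I, rfl⟩, evG_xt B s I⟩
  have hmul : ∀ f ∈ FA C, ∀ g ∈ N, f * g ∈ N := by
    intro f hf g hg
    rw [hNs] at hg ⊢
    have h1 := Submodule.mul_mem_mul (FA_span hf) hg
    rw [Submodule.span_mul_span] at h1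
    refine Submodule.span_mono ?_ h1
    rintro _ ⟨_, ⟨m, s, hs, I, rfl⟩, _, ⟨n, t, ht, J, rfl⟩, rfl⟩
    refine ⟨m + n, tmul s t, CSys.rad_mul hs ht, Fin.append I J, ?_⟩
    rw [cf_tmul]
    simp only [Fin.append_left, Fin.append_right]
  let J : Ideal (FA C) :=
    { carrier := {x | (x : Aut B → K) ∈ N}
      add_mem' := fun {a b} ha hb => Submodule.add_mem N ha hb
      zero_mem' := Submodule.zero_mem N
      smul_mem' := fun c x hx => hmul _ c.2 _ hx }
  have hJ : ∀ x : FA C, x ∈ J ↔ (x : Aut B → K) ∈ N := fun x => Iff.rfl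
  have hJtop : J ≠ ⊤ := by
    intro h
    have h1 : (1 : FA C) ∈ J := by rw [h]; trivial
    rw [hJ] at h1
    obtain ⟨F, hF, hF1⟩ := h1
    exact not_one T hom hB hp hF hF1
  obtain ⟨φ, hφ⟩ := exists_character hK (rank_FA (C := C)) hJtop
  refine ⟨φ, fun n t ht I => hφ _ ?_⟩
  rw [hJ, hNs]
  exact Submodule.subset_span ⟨n, t, ht, I, rfl⟩

end Pool.Agent.Q55.Nr
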